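import Mathlib

/-!
# Counting pairs with common large prime factors
-/

set_option autoImplicit false

namespace Pool.Agent.K3h28.AF

open Finset

/-- The properties of the functions which are used. -/
structure Nice {M : Type} [Fintype M] (F : M → ℕ → ℤ) (w₀ K E : ℕ) : Prop where
  one_le : 1 ≤ K
  sq_le : K ^ 2 ≤ w₀
  ne_zero : ∀ c, ∀ n, w₀ < n → F c n ≠ 0
  size : ∀ c, ∀ j, 1 ≤ j → ∀ n < 2 ^ (j + 1), (F c n).natAbs ≤ 2 ^ (E * j)
  fib : ∀ c v, ∀ T : Finset ℕ, (∀ n ∈ T, (F c n).natAbs = v) → T.card ≤ K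
  roots : ∀ r : ℕ, r.Prime → w₀ < r → ∃ R : Finset ℕ, R.card ≤ K ∧
    ∀ n, (∃ c, (r : ℤ) ∣ F c n) → n % r ∈ R
  coprime : ∀ r : ℕ, r.Prime → w₀ < r → ∀ c c', c ≠ c' → ∀ n, (r : ℤ) ∣ F c n → ¬ (r : ℤ) ∣ F c' n

/-- elements of an interval in one residue class -/
theorem card_class (a L s : ℕ) (T : Finset ℕ) (hT : T ⊆ Ico a (a + L))
    (hc : ∀ n ∈ T, ∀ n' ∈ T, n ≡ n' [MOD s]) : T.card ≤ L / s + 1 := by
  have h1 : T.card ≤ (range (L / s + 1)).card := by
    refine Finset.card_le_card_of_injOn (fun n => (n - a) / s) ?_ ?_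
    · intro n hn
      have h2 := Finset.mem_Ico.1 (hT hn)
      simp only [Finset.coe_range, Set.mem_Iio]
      refine Nat.lt_succ_of_le (Nat.div_le_div_right ?_)
      omega
    · intro n hn n' hn' h
      have h2 := Finset.mem_Ico.1 (hT hn)
      have h3 := Finset.mem_Ico.1 (hT hn')
      have h4 := hc n hn n' hn'
      obtain ⟨u, rfl⟩ := Nat.exists_eq_add_of_le h2.1
      obtain ⟨u', rfl⟩ := Nat.exists_eq_add_of_le h3.1
      have h5 : u ≡ u' [MOD s] := Nat.ModEq.add_left_cancel' a h4
      simp only [Nat.add_sub_cancel_left] at h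
      have h6 := Nat.div_add_mod u s
      have h7 := Nat.div_add_mod u' s
      rw [h, h5] at h6
      rw [h6] at h7
      rw [h7]
  rwa [Finset.card_range] at h1

theorem prod_modEq {S : Finset ℕ} (hS : ∀ r ∈ S, r.Prime) {n n' : ℕ}
    (h : ∀ r ∈ S, n % r = n' % r) : n ≡ n' [MOD ∏ r ∈ S, r] := by
  rw [Nat.modEq_iff_dvd]
  push_cast
  refine Finset.prod_dvd_of_coprime ?_ ?_
  · intro r hr r' hr' hne
    exact (Nat.isCoprime_iff_coprime).2 ((Nat.coprime_primes (hS r hr) (hS r' hr')).2 hne)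
  · intro r hr
    exact (Nat.modEq_iff_dvd).1 (h r hr)

/-- numbers in an interval with given prime divisors of the values -/
theorem card_dvd {M : Type} [Fintype M] {F : M → ℕ → ℤ} {w₀ K E : ℕ} (hF : Nice F w₀ K E)
    (S : Finset ℕ) (hS : ∀ r ∈ S, r.Prime ∧ w₀ < r) (a L : ℕ) (T : Finset ℕ)
    (hT : T ⊆ Ico a (a + L)) (hT' : ∀ n ∈ T, ∀ r ∈ S, ∃ c, (r : ℤ) ∣ F c n) :
    T.card ≤ K ^ S.card * (L / (∏ r ∈ S, r) + 1) := by
  classical
  choose! R hR1 hR2 using hF.roots
  set f : ℕ → (∀ r ∈ S, ℕ) := fun n r _ => n % r with hf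
  have h1 : ∀ n ∈ T, f n ∈ S.pi R := by
    intro n hn
    rw [Finset.mem_pi]
    intro r hr
    exact hR2 r (hS r hr).1 (hS r hr).2 n (hT' n hn r hr)
  have h2 : T.card ≤ (L / (∏ r ∈ S, r) + 1) * (S.pi R).card := by
    refine Finset.card_le_mul_card_image_of_maps_to h1 _ ?_
    intro b _
    refine card_class a L _ _
      ((Finset.filter_subset _ _).trans hT) ?_
    intro n hn n' hn'
    rw [Finset.mem_filter] at hn hn'
    refine prod_modEq (fun r hr => (hS r hr).1) ?_
    intro r hr
    have h3 : f n = f n' := hn.2.trans hn'.2.symm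
    exact congrFun (congrFun h3 r) hr
  have h3 : (S.pi R).card ≤ K ^ S.card := by
    rw [Finset.card_pi]
    refine (Finset.prod_le_pow_card _ _ K fun r hr => hR1 r (hS r hr).1 (hS r hr).2)
  calc T.card ≤ (L / (∏ r ∈ S, r) + 1) * (S.pi R).card := h2
    _ ≤ (L / (∏ r ∈ S, r) + 1) * K ^ S.card := Nat.mul_le_mul_left _ h3
    _ = _ := mul_comm _ _

/-- numbers with given prime factors -/
theorem card_supported (T : Finset ℕ) (L : ℕ) (V : Finset ℕ)
    (hV : ∀ v ∈ V, v ≠ 0 ∧ v ≤ 2 ^ L ∧ v.primeFactors ⊆ T) : V.card ≤ (L + 1) ^ T.card := by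
  classical
  have h1 : V.card ≤ (T.pi fun _ => range (L + 1)).card := by
    refine Finset.card_le_card_of_injOn (fun v r _ => v.factorization r) ?_ ?_
    · intro v hv
      simp only [Finset.mem_coe, Finset.mem_pi, Finset.mem_range]
      intro r _
      obtain ⟨h2, h3, -⟩ := hV v hv
      refine Nat.lt_succ_of_le ?_
      by_cases hr : r.Prime
      · have h4 : 2 ^ v.factorization r ≤ 2 ^ L := by
          calc 2 ^ v.factorization r ≤ r ^ v.factorization r := Nat.pow_le_pow_left hr.two_le _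
            _ ≤ v := Nat.le_of_dvd (Nat.pos_of_ne_zero h2) (Nat.ordProj_dvd v r)
            _ ≤ 2 ^ L := h3
        exact (Nat.pow_le_pow_iff_right (by norm_num)).1 h4
      · rw [Nat.factorization_eq_zero_of_not_prime v hr]
        exact Nat.zero_le _
    · intro v hv v' hv' h
      refine Nat.eq_of_factorization_eq (hV v hv).1 (hV v' hv').1 ?_
      intro r
      by_cases hr : r ∈ T
      · exact congrFun (congrFun h r) hr
      · rw [Finsupp.notMem_support_iff.1, Finsupp.notMem_support_iff.1]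
        · intro h5
          exact hr ((hV v' hv').2.2 h5)
        · intro h5
          exact hr ((hV v hv).2.2 h5)
  refine h1.trans ?_
  rw [Finset.card_pi]
  simp

/-- the product of the prime factors larger than `w` -/
def rad (w v : ℕ) : ℕ := ∏ r ∈ v.primeFactors.filter (fun r => w < r), r

theorem two_pow_card_le (S : Finset ℕ) (hS : ∀ r ∈ S, r.Prime) : 2 ^ S.card ≤ ∏ r ∈ S, r := by
  rw [← Finset.prod_const]
  exact Finset.prod_le_prod' fun r hr => (hS r hr).two_le

theorem card_primeFactors_le (s : ℕ) : s.primeFactors.card ≤ Nat.log 2 s := by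
  by_cases h : s = 0
  · subst h; simp
  · refine Nat.le_log_of_pow_le (by norm_num) ?_
    exact (two_pow_card_le _ fun r hr => Nat.prime_of_mem_primeFactors hr).trans
      (Nat.le_of_dvd (Nat.pos_of_ne_zero h) (Nat.prod_primeFactors_dvd s))

/-- numbers with small rough radical -/
theorem card_small_rad (w Y L : ℕ) (V : Finset ℕ)
    (hV : ∀ v ∈ V, v ≠ 0 ∧ v ≤ 2 ^ L ∧ rad w v ≤ Y) :
    V.card ≤ (Y + 1) * (L + 1) ^ (w + 1 + Nat.log 2 Y) := by
  classical
  have h1 : V ⊆ (range (Y + 1)).biUnion (fun s => V.filter fun v => rad w v = s) := by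
    intro v hv
    rw [Finset.mem_biUnion]
    refine ⟨rad w v, ?_, ?_⟩
    · rw [Finset.mem_range]
      exact Nat.lt_succ_of_le (hV v hv).2.2
    · rw [Finset.mem_filter]
      exact ⟨hv, rfl⟩
  refine (Finset.card_le_card h1).trans ?_
  have h2 := Finset.card_biUnion_le_card_mul (range (Y + 1)) (fun s => V.filter fun v => rad w v = s)
    ((L + 1) ^ (w + 1 + Nat.log 2 Y)) ?_
  · rwa [Finset.card_range] at h2
  · intro s hs
    rw [Finset.mem_range] at hs
    refine (card_supported (range (w + 1) ∪ s.primeFactors) L _ ?_).trans ?_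
    · intro v hv
      rw [Finset.mem_filter] at hv
      refine ⟨(hV v hv.1).1, (hV v hv.1).2.1, ?_⟩
      intro r hr
      rw [Finset.mem_union, Finset.mem_range]
      by_cases hw : w < r
      · right
        rw [← hv.2]
        have hr' : r ∈ v.primeFactors.filter (fun r => w < r) := by
          rw [Finset.mem_filter]
          exact ⟨hr, hw⟩
        refine Nat.mem_primeFactors.2 ⟨Nat.prime_of_mem_primeFactors hr, Finset.dvd_prod_of_mem _ hr', ?_⟩
        refine (Finset.prod_pos fun r hr => ?_).ne'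
        exact (Nat.prime_of_mem_primeFactors (Finset.mem_filter.1 hr).1).pos
      · left
        omega
    · refine Nat.pow_le_pow_right (Nat.succ_pos _) ?_
      refine (Finset.card_union_le _ _).trans ?_
      rw [Finset.card_range]
      refine Nat.add_le_add_left ?_ _
      exact (card_primeFactors_le s).trans (Nat.log_mono_right (by omega))

/-- a subset whose product is not much larger than `Y` -/
theorem exists_sub (Y : ℕ) (hY : 1 ≤ Y) : ∀ (S : Finset ℕ), (∀ r ∈ S, 1 ≤ r) → Y < ∏ r ∈ S, r →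
    ∃ S' ⊆ S, Y < ∏ r ∈ S', r ∧ (∏ r ∈ S', r ≤ Y ^ 2 ∨ S'.card = 1) := by
  classical
  intro S
  induction S using Finset.strongInduction with
  | H S ih =>
    intro hS1 hS
    by_cases h : ∃ r ∈ S, Y < ∏ x ∈ S.erase r, x
    · obtain ⟨r, hr, h1⟩ := h
      obtain ⟨S', h2, h3, h4⟩ := ih _ (Finset.erase_ssubset hr)
        (fun r hr => hS1 r (Finset.mem_of_mem_erase hr)) h1
      exact ⟨S', h2.trans (Finset.erase_subset _ _), h3, h4⟩
    · push Not at h
      refine ⟨S, Finset.Subset.refl _, hS, ?_⟩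
      by_cases hc : S.card = 1
      · exact Or.inr hc
      · left
        have hc0 : S.card ≠ 0 := by
          intro h0
          rw [Finset.card_eq_zero] at h0
          rw [h0, Finset.prod_empty] at hS
          omega
        obtain ⟨r, hr, r', hr', hne⟩ := Finset.one_lt_card.1 (by omega : 1 < S.card)
        have h1 := h r hr
        have h2 := h r' hr'
        have h3 : r ≤ Y := by
          refine le_trans ?_ h2
          have hr2 : r ∈ S.erase r' := Finset.mem_erase.2 ⟨hne, hr⟩
          exact Nat.le_of_dvd (Finset.prod_pos fun x hx => hS1 x (Finset.mem_of_mem_erase hx))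
            (Finset.dvd_prod_of_mem _ hr2)
        rw [← Finset.mul_prod_erase S _ hr, sq]
        exact Nat.mul_le_mul h3 h1

end Pool.Agent.K3h28.AF
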