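import Mathlib
import Pool.Agent.K3h28.AF.Count

/-!
# Bad pairs are rare
-/

set_option autoImplicit false

namespace Pool.Agent.K3h28.AF

open Finset Filter Topology

/-- The prime factors larger than `w` of some `F c q` all divide some `F c' p`. -/
def Bad {M : Type} (F : M → ℕ → ℤ) (w p q : ℕ) : Prop :=
  ∃ c, ∀ r : ℕ, r.Prime → w < r → (r : ℤ) ∣ F c q → ∃ c', (r : ℤ) ∣ F c' p

/-- the block -/
def blk (j : ℕ) : Finset ℕ := Ico (2 ^ j) (2 ^ (j + 1))

theorem card_blk (j : ℕ) : (blk j).card = 2 ^ j := by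
  rw [blk, Nat.card_Ico, pow_succ]
  omega

open Classical in
theorem card_partners {M : Type} [Fintype M] {F : M → ℕ → ℤ} {w₀ K E : ℕ} (hF : Nice F w₀ K E)
    (w : ℕ) (hw : w₀ ≤ w) (j Z : ℕ) (hZ : 1 ≤ Z) (c : M) (q : ℕ)
    (hq : Z ^ 2 < rad w (F c q).natAbs) :
    (((blk j).filter fun p => ∀ r : ℕ, r.Prime → w < r → (r : ℤ) ∣ F c q →
      ∃ c', (r : ℤ) ∣ F c' p).card : ℝ) ≤ K * ((2 : ℝ) ^ j / Z + (Z : ℝ) ^ 2) := by
  set T := (blk j).filter fun p => ∀ r : ℕ, r.Prime → w < r → (r : ℤ) ∣ F c q →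
      ∃ c', (r : ℤ) ∣ F c' p with hT
  have hK := hF.one_le
  obtain ⟨S', hS', h1, h2⟩ := exists_sub (Z ^ 2) (Nat.one_le_pow _ _ hZ)
    ((F c q).natAbs.primeFactors.filter fun r => w < r) (by
      intro r hr
      exact (Nat.prime_of_mem_primeFactors (Finset.mem_filter.1 hr).1).one_le) hq
  have hSp : ∀ r ∈ S', r.Prime ∧ w < r ∧ (r : ℤ) ∣ F c q := by
    intro r hr
    have h3 := Finset.mem_filter.1 (hS' hr)
    exact ⟨Nat.prime_of_mem_primeFactors h3.1, h3.2,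
      Int.natCast_dvd.2 (Nat.dvd_of_mem_primeFactors h3.1)⟩
  have h3 := card_dvd hF S' (fun r hr => ⟨(hSp r hr).1, hw.trans_lt (hSp r hr).2.1⟩) (2 ^ j) (2 ^ j) T
    (by
      refine (Finset.filter_subset _ _).trans ?_
      rw [blk, pow_succ]
      intro n hn
      rw [Finset.mem_Ico] at hn ⊢
      omega) (by
      intro n hn r hr
      rw [hT, Finset.mem_filter] at hn
      exact hn.2 r (hSp r hr).1 (hSp r hr).2.1 (hSp r hr).2.2)
  set s := ∏ r ∈ S', r with hs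
  have hs0 : 0 < s := Finset.prod_pos fun r hr => (hSp r hr).1.pos
  have hsR : (0 : ℝ) < s := by exact_mod_cast hs0
  have hZR : (1 : ℝ) ≤ Z := by exact_mod_cast hZ
  have hKR : (1 : ℝ) ≤ K := by exact_mod_cast hK
  have h4 : (T.card : ℝ) ≤ (K : ℝ) ^ S'.card * ((2 : ℝ) ^ j / s + 1) := by
    calc (T.card : ℝ) ≤ ((K ^ S'.card * (2 ^ j / s + 1) : ℕ) : ℝ) := by exact_mod_cast h3
      _ = (K : ℝ) ^ S'.card * (((2 ^ j / s : ℕ) : ℝ) + 1) := by push_cast; ring
      _ ≤ (K : ℝ) ^ S'.card * ((2 : ℝ) ^ j / s + 1) := by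
        refine mul_le_mul_of_nonneg_left ?_ (by positivity)
        have := Nat.cast_div_le (α := ℝ) (m := 2 ^ j) (n := s)
        push_cast at this
        linarith
  refine h4.trans ?_
  rcases h2 with h2 | h2
  · -- moderate product
    have h5 : (K ^ 2) ^ S'.card ≤ s := by
      rw [hs, ← Finset.prod_const]
      exact Finset.prod_le_prod' fun r hr => (hF.sq_le.trans hw).trans (hSp r hr).2.1.le
    have h6 : (K ^ S'.card) ^ 2 ≤ s := by
      calc (K ^ S'.card) ^ 2 = (K ^ 2) ^ S'.card := by rw [← pow_mul, ← pow_mul, mul_comm]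
        _ ≤ s := h5
    have h7 : K ^ S'.card ≤ Z ^ 2 := by
      have : (K ^ S'.card) ^ 2 ≤ (Z ^ 2) ^ 2 := h6.trans h2
      exact (Nat.pow_le_pow_iff_left (by norm_num)).1 this
    have h8 : K ^ S'.card * Z ≤ s := by
      have : (K ^ S'.card * Z) ^ 2 ≤ s ^ 2 := by
        calc (K ^ S'.card * Z) ^ 2 = (K ^ S'.card) ^ 2 * Z ^ 2 := by ring
          _ ≤ s * s := Nat.mul_le_mul h6 h1.le
          _ = s ^ 2 := by ring
      exact (Nat.pow_le_pow_iff_left (by norm_num)).1 this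
    have h7R : (K : ℝ) ^ S'.card ≤ (Z : ℝ) ^ 2 := by exact_mod_cast h7
    have h8R : (K : ℝ) ^ S'.card * Z ≤ s := by exact_mod_cast h8
    have h9 : (K : ℝ) ^ S'.card * ((2 : ℝ) ^ j / s) ≤ (2 : ℝ) ^ j / Z := by
      rw [mul_div_assoc', div_le_div_iff₀ hsR (by linarith)]
      have : (0 : ℝ) < 2 ^ j := by positivity
      nlinarith
    have h10 : (0 : ℝ) ≤ (2 : ℝ) ^ j / Z + (Z : ℝ) ^ 2 := by positivity
    calc (K : ℝ) ^ S'.card * ((2 : ℝ) ^ j / s + 1) =
        (K : ℝ) ^ S'.card * ((2 : ℝ) ^ j / s) + (K : ℝ) ^ S'.card := by ring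
      _ ≤ (2 : ℝ) ^ j / Z + (Z : ℝ) ^ 2 := add_le_add h9 h7R
      _ ≤ K * ((2 : ℝ) ^ j / Z + (Z : ℝ) ^ 2) := by nlinarith
  · rw [h2, pow_one]
    refine mul_le_mul_of_nonneg_left ?_ (by positivity)
    refine add_le_add ?_ (by nlinarith)
    refine div_le_div_of_nonneg_left (by positivity) (by linarith) ?_
    have h5 : (Z : ℝ) ^ 2 < s := by exact_mod_cast h1
    nlinarith

open Classical in
theorem card_bad {M : Type} [Fintype M] {F : M → ℕ → ℤ} {w₀ K E : ℕ} (hF : Nice F w₀ K E)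
    (w : ℕ) (hw : w₀ ≤ w) (j Z : ℕ) (hj : 1 ≤ j) (hj' : w₀ < 2 ^ j) (hZ : 1 ≤ Z) :
    ((((blk j) ×ˢ (blk j)).filter fun x => Bad F w x.1 x.2).card : ℝ) ≤
      Fintype.card M * ((2 : ℝ) ^ j * (K * ((Z ^ 2 + 1 : ℕ) * ((E * j + 1 : ℕ) : ℝ) ^
        (w + 1 + Nat.log 2 (Z ^ 2)))) + (2 : ℝ) ^ j * (K * ((2 : ℝ) ^ j / Z + (Z : ℝ) ^ 2))) := by
  set T : M → ℕ → Finset ℕ := fun c q => (blk j).filter fun p => ∀ r : ℕ, r.Prime → w < r →
    (r : ℤ) ∣ F c q → ∃ c', (r : ℤ) ∣ F c' p with hT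
  have hne : ∀ c, ∀ q ∈ blk j, F c q ≠ 0 := by
    intro c q hq
    rw [blk, Finset.mem_Ico] at hq
    exact hF.ne_zero c q (hj'.trans_le hq.1)
  have h1 : ((((blk j) ×ˢ (blk j)).filter fun x => Bad F w x.1 x.2).card) ≤
      ∑ c, ∑ q ∈ blk j, (T c q).card := by
    have h2 : ((blk j) ×ˢ (blk j)).filter (fun x => Bad F w x.1 x.2) ⊆
        (univ : Finset M).biUnion fun c => (blk j).biUnion fun q => (T c q).image fun p => (p, q) := by
      intro x hx
      rw [Finset.mem_filter, Finset.mem_product] at hx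
      obtain ⟨⟨h3, h4⟩, c, hc⟩ := hx
      rw [Finset.mem_biUnion]
      refine ⟨c, Finset.mem_univ _, ?_⟩
      rw [Finset.mem_biUnion]
      refine ⟨x.2, h4, ?_⟩
      rw [Finset.mem_image]
      exact ⟨x.1, Finset.mem_filter.2 ⟨h3, hc⟩, rfl⟩
    refine (Finset.card_le_card h2).trans (Finset.card_biUnion_le.trans ?_)
    refine Finset.sum_le_sum fun c _ => Finset.card_biUnion_le.trans ?_
    exact Finset.sum_le_sum fun q _ => Finset.card_image_le
  have h2 : ∀ c, ((∑ q ∈ blk j, (T c q).card : ℕ) : ℝ) ≤ (2 : ℝ) ^ j * (K * ((Z ^ 2 + 1 : ℕ) *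
      ((E * j + 1 : ℕ) : ℝ) ^ (w + 1 + Nat.log 2 (Z ^ 2)))) +
      (2 : ℝ) ^ j * (K * ((2 : ℝ) ^ j / Z + (Z : ℝ) ^ 2)) := by
    intro c
    set Q := (blk j).filter fun q => rad w (F c q).natAbs ≤ Z ^ 2 with hQ
    have h3 : (Q.card : ℝ) ≤ K * ((Z ^ 2 + 1 : ℕ) * ((E * j + 1 : ℕ) : ℝ) ^
        (w + 1 + Nat.log 2 (Z ^ 2))) := by
      have h4 : Q.card ≤ K * (Q.image fun q => (F c q).natAbs).card := by
        refine Finset.card_le_mul_card_image_of_maps_to
          (fun q hq => Finset.mem_image_of_mem _ hq) K ?_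
        intro v _
        refine hF.fib c v _ ?_
        intro n hn
        rw [Finset.mem_filter] at hn
        exact hn.2
      have h5 := card_small_rad w (Z ^ 2) (E * j) (Q.image fun q => (F c q).natAbs) (by
        intro v hv
        obtain ⟨q, hq, rfl⟩ := Finset.mem_image.1 hv
        rw [hQ, Finset.mem_filter] at hq
        refine ⟨Int.natAbs_ne_zero.2 (hne c q hq.1), ?_, hq.2⟩
        refine hF.size c j hj q ?_
        have := hq.1
        rw [blk, Finset.mem_Ico] at this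
        exact this.2)
      have h6 := h4.trans (Nat.mul_le_mul_left K h5)
      exact_mod_cast h6
    have h4 : ∀ q ∈ blk j, ((T c q).card : ℝ) ≤
        (if q ∈ Q then (2 : ℝ) ^ j else 0) + K * ((2 : ℝ) ^ j / Z + (Z : ℝ) ^ 2) := by
      intro q hq
      have h0 : (0 : ℝ) ≤ K * ((2 : ℝ) ^ j / Z + (Z : ℝ) ^ 2) := by positivity
      by_cases h5 : q ∈ Q
      · rw [if_pos h5]
        have h6 : ((T c q).card : ℝ) ≤ (2 : ℝ) ^ j := by
          have h7 := Finset.card_le_card (Finset.filter_subset (fun p => ∀ r : ℕ, r.Prime → w < r →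
            (r : ℤ) ∣ F c q → ∃ c', (r : ℤ) ∣ F c' p) (blk j))
          rw [card_blk] at h7
          exact_mod_cast h7
        linarith
      · rw [if_neg h5, zero_add]
        have h6 : Z ^ 2 < rad w (F c q).natAbs := by
          by_contra h
          exact h5 (Finset.mem_filter.2 ⟨hq, not_lt.1 h⟩)
        exact card_partners hF w hw j Z hZ c q h6
    push_cast
    refine (Finset.sum_le_sum h4).trans ?_
    rw [Finset.sum_add_distrib, Finset.sum_const, card_blk, nsmul_eq_mul]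
    push_cast
    refine add_le_add ?_ le_rfl
    rw [← Finset.sum_filter]
    have h5 : (blk j).filter (fun q => q ∈ Q) = Q := by
      ext q
      rw [Finset.mem_filter]
      exact ⟨fun h => h.2, fun h => ⟨(Finset.mem_filter.1 h).1, h⟩⟩
    rw [h5, Finset.sum_const, nsmul_eq_mul, mul_comm]
    refine mul_le_mul_of_nonneg_left ?_ (by positivity)
    refine h3.trans (le_of_eq ?_)
    push_cast
    rfl
  calc ((((blk j) ×ˢ (blk j)).filter fun x => Bad F w x.1 x.2).card : ℝ)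
      ≤ ((∑ c, ∑ q ∈ blk j, (T c q).card : ℕ) : ℝ) := by exact_mod_cast h1
    _ = ∑ c, ((∑ q ∈ blk j, (T c q).card : ℕ) : ℝ) := by push_cast; rfl
    _ ≤ ∑ _c : M, _ := Finset.sum_le_sum fun c _ => h2 c
    _ = _ := by
      rw [Finset.sum_const, nsmul_eq_mul, Finset.card_univ]

end Pool.Agent.K3h28.AF
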