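import Mathlib
import Pool.Agent.K3h28.AF.Bad

/-!
# Bad pairs are rare, asymptotic form
-/

set_option autoImplicit false

namespace Pool.Agent.K3h28.AF

open Finset Filter Topology

theorem ev_poly (C : ℝ) (n : ℕ) : ∃ j₀ : ℕ, ∀ j ≥ j₀, C * (j : ℝ) ^ n ≤ 2 ^ j := by
  have h1 := tendsto_pow_const_div_const_pow_of_one_lt n (one_lt_two : (1 : ℝ) < 2)
  have h2 : ∀ᶠ j : ℕ in atTop, (j : ℝ) ^ n / 2 ^ j < 1 / (|C| + 1) :=
    h1.eventually (gt_mem_nhds (by positivity))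
  obtain ⟨j₀, hj₀⟩ := eventually_atTop.1 h2
  refine ⟨j₀, fun j hj => ?_⟩
  have h3 := hj₀ j hj
  rw [div_lt_div_iff₀ (by positivity) (by positivity), one_mul] at h3
  have h4 : C ≤ |C| + 1 := by linarith [le_abs_self C]
  calc C * (j : ℝ) ^ n ≤ (|C| + 1) * (j : ℝ) ^ n :=
        mul_le_mul_of_nonneg_right h4 (by positivity)
    _ ≤ 2 ^ j := by linarith

theorem log_le' (x n : ℕ) (h0 : x ≠ 0) (h : x < 2 ^ n) : Nat.log 2 x ≤ n :=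
  (Nat.log_lt_of_lt_pow h0 h).le

theorem log_le (j l : ℕ) (hj : 0 < j) (hjl : j < 2 ^ l) : Nat.log 2 ((j ^ 8) ^ 2) ≤ 16 * l := by
  have h2 : (j ^ 8) ^ 2 < 2 ^ (16 * l) := by
    have h3 : j ^ 16 < (2 ^ l) ^ 16 := Nat.pow_lt_pow_left hjl (by norm_num)
    rw [← pow_mul, mul_comm l 16] at h3
    rw [← pow_mul]
    exact h3
  have h0 : (j ^ 8) ^ 2 ≠ 0 := by positivity
  generalize (j ^ 8) ^ 2 = x at h0 h2
  exact log_le' x _ h0 h2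

theorem fin_aux (C : ℝ) (c₀ a n j e : ℕ) (hC : C ≤ 2 ^ c₀) (h3 : a ^ n * j ^ 20 ≤ 2 ^ e)
    (h4 : c₀ + e ≤ j) : C * ((a : ℝ) ^ n * (j : ℝ) ^ 20) ≤ 2 ^ j := by
  have h3R : (a : ℝ) ^ n * (j : ℝ) ^ 20 ≤ 2 ^ e := by exact_mod_cast h3
  calc C * ((a : ℝ) ^ n * (j : ℝ) ^ 20)
      ≤ 2 ^ c₀ * ((a : ℝ) ^ n * (j : ℝ) ^ 20) :=
        mul_le_mul_of_nonneg_right hC (by positivity)
    _ ≤ 2 ^ c₀ * 2 ^ e := mul_le_mul_of_nonneg_left h3R (by positivity)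
    _ = 2 ^ (c₀ + e) := by rw [pow_add]
    _ ≤ 2 ^ j := pow_le_pow_right₀ (by norm_num) h4

theorem ev_quasi (C : ℝ) (E b : ℕ) : ∃ j₀ : ℕ, ∀ j ≥ j₀,
    C * (((E * j + 1 : ℕ) : ℝ) ^ (b + Nat.log 2 ((j ^ 8) ^ 2)) * (j : ℝ) ^ 20) ≤ 2 ^ j := by
  obtain ⟨c₀, hc₀⟩ := pow_unbounded_of_one_lt C (one_lt_two : (1 : ℝ) < 2)
  obtain ⟨l₀, hl₀⟩ := ev_poly (2 * (c₀ + 2 * b + 52)) 2
  refine ⟨max (2 ^ l₀) (E + 2), fun j hj => ?_⟩
  have hj1 : 2 ^ l₀ ≤ j := (le_max_left _ _).trans hj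
  have hj2 : E + 2 ≤ j := (le_max_right _ _).trans hj
  set l := Nat.log 2 j + 1 with hl
  have hl1 : l₀ ≤ l := by
    have := Nat.le_log_of_pow_le (b := 2) (by norm_num) hj1
    omega
  have hjl : j < 2 ^ l := Nat.lt_pow_succ_log_self (by norm_num) j
  have hjl2 : 2 ^ (l - 1) ≤ j := Nat.pow_log_le_self 2 (by omega)
  have h1 : Nat.log 2 ((j ^ 8) ^ 2) ≤ 16 * l := log_le j l (by omega) hjl
  have h2 : E * j + 1 ≤ j ^ 2 := by nlinarith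
  have h3 : (E * j + 1) ^ (b + Nat.log 2 ((j ^ 8) ^ 2)) * j ^ 20 ≤ 2 ^ ((2 * b + 52) * l ^ 2) := by
    calc (E * j + 1) ^ (b + Nat.log 2 ((j ^ 8) ^ 2)) * j ^ 20
        ≤ (E * j + 1) ^ (b + 16 * l) * j ^ 20 := by
          refine Nat.mul_le_mul_right _ (Nat.pow_le_pow_right (by omega) ?_)
          omega
      _ ≤ (j ^ 2) ^ (b + 16 * l) * j ^ 20 :=
          Nat.mul_le_mul_right _ (Nat.pow_le_pow_left h2 _)
      _ = j ^ (2 * b + 32 * l + 20) := by ring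
      _ ≤ (2 ^ l) ^ (2 * b + 32 * l + 20) := Nat.pow_le_pow_left hjl.le _
      _ = 2 ^ (l * (2 * b + 32 * l + 20)) := by rw [← pow_mul]
      _ ≤ 2 ^ ((2 * b + 52) * l ^ 2) := by
          refine Nat.pow_le_pow_right (by norm_num) ?_
          have hl2 : l ≤ l ^ 2 := Nat.le_self_pow (by norm_num) l
          calc l * (2 * b + 32 * l + 20) = 2 * b * l + 32 * l ^ 2 + 20 * l := by ring
            _ ≤ 2 * b * l ^ 2 + 32 * l ^ 2 + 20 * l ^ 2 := by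
              have := Nat.mul_le_mul_left (2 * b) hl2
              omega
            _ = _ := by ring
  have h4 : c₀ + (2 * b + 52) * l ^ 2 ≤ j := by
    have h5 := hl₀ l hl1
    have h6 : 2 * (c₀ + 2 * b + 52) * l ^ 2 ≤ 2 ^ l := by exact_mod_cast h5
    have h7 : 2 ^ l = 2 * 2 ^ (l - 1) := by
      rw [← pow_succ']
      congr 1
    have hl2 : 1 ≤ l := by omega
    have h8 : (c₀ + 2 * b + 52) * l ^ 2 ≤ 2 ^ (l - 1) := by
      have h9 : 2 * ((c₀ + 2 * b + 52) * l ^ 2) ≤ 2 * 2 ^ (l - 1) := by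
        rw [← h7]
        calc 2 * ((c₀ + 2 * b + 52) * l ^ 2) = 2 * (c₀ + 2 * b + 52) * l ^ 2 := by ring
          _ ≤ _ := h6
      omega
    refine le_trans ?_ (h8.trans hjl2)
    have h10 : 1 ≤ l ^ 2 := Nat.one_le_pow _ _ hl2
    calc c₀ + (2 * b + 52) * l ^ 2 ≤ c₀ * l ^ 2 + (2 * b + 52) * l ^ 2 :=
          Nat.add_le_add_right (Nat.le_mul_of_pos_right _ h10) _
      _ = (c₀ + 2 * b + 52) * l ^ 2 := by ring
  generalize Nat.log 2 ((j ^ 8) ^ 2) = x at h3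
  exact fin_aux C c₀ (E * j + 1) (b + x) j _ hc₀.le h3 h4

open Classical in
/-- **Bad pairs are rare.** -/
theorem bad_rare {M : Type} [Fintype M] {F : M → ℕ → ℤ} {w₀ K E : ℕ} (hF : Nice F w₀ K E)
    (w : ℕ) (hw : w₀ ≤ w) (η : ℝ) (hη : 0 < η) : ∃ j₀ : ℕ, ∀ j ≥ j₀,
    ((((blk j) ×ˢ (blk j)).filter fun x => Bad F w x.1 x.2).card : ℝ) ≤
      η * ((2 : ℝ) ^ j / (j : ℝ) ^ 2) ^ 2 := by
  set m : ℝ := (Fintype.card M : ℝ) with hm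
  obtain ⟨j₁, hj₁⟩ := ev_quasi (m * K * 2 * 4 / η) E (w + 1)
  obtain ⟨j₂, hj₂⟩ := ev_poly (m * K * 4 / η) 20
  obtain ⟨j₃, hj₃⟩ := exists_nat_ge (m * K * 4 / η)
  refine ⟨max (max j₁ j₂) (max (j₃ + 1) (w₀ + 1)), fun j hj => ?_⟩
  have hjj1 : j₁ ≤ j := ((le_max_left _ _).trans (le_max_left _ _)).trans hj
  have hjj2 : j₂ ≤ j := ((le_max_right _ _).trans (le_max_left _ _)).trans hj
  have hjj3 : j₃ + 1 ≤ j := ((le_max_left _ _).trans (le_max_right _ _)).trans hj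
  have hjj4 : w₀ + 1 ≤ j := ((le_max_right _ _).trans (le_max_right _ _)).trans hj
  have hj1 : 1 ≤ j := by omega
  have hjR : (1 : ℝ) ≤ j := by exact_mod_cast hj1
  have h0 := card_bad hF w hw j (j ^ 8) hj1 (lt_of_lt_of_le (by omega) (Nat.lt_two_pow_self).le)
    (Nat.one_le_pow _ _ hj1)
  refine h0.trans ?_
  have hA := hj₁ j hjj1
  have hB := hj₂ j hjj2
  have hC : m * K * 4 / η ≤ j := hj₃.trans (by exact_mod_cast (by omega : j₃ ≤ j))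
  set G : ℝ := (((E * j + 1 : ℕ) : ℝ) ^ (w + 1 + Nat.log 2 ((j ^ 8) ^ 2))) with hG
  have hG0 : 0 ≤ G := by positivity
  have hm0 : 0 ≤ m := by positivity
  have hK0 : (0 : ℝ) ≤ K := by positivity
  have hP : (0 : ℝ) < 2 ^ j := by positivity
  -- the three bounds
  have e1 : m * K * 2 * (G * (j : ℝ) ^ 20) ≤ η / 4 * 2 ^ j := by
    have h1 : m * K * 2 * 4 / η * (G * (j : ℝ) ^ 20) =
        (m * K * 2 * (G * (j : ℝ) ^ 20)) * (4 / η) := by ring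
    rw [h1] at hA
    have h2 : (m * K * 2 * (G * (j : ℝ) ^ 20)) * (4 / η) * (η / 4) ≤ 2 ^ j * (η / 4) :=
      mul_le_mul_of_nonneg_right hA (by positivity)
    have h3 : 4 / η * (η / 4) = 1 := by field_simp
    rw [mul_assoc, h3, mul_one] at h2
    linarith
  have e2 : m * K * (j : ℝ) ^ 20 ≤ η / 4 * 2 ^ j := by
    have h1 : m * K * 4 / η * (j : ℝ) ^ 20 = (m * K * (j : ℝ) ^ 20) * (4 / η) := by ring
    rw [h1] at hB
    have h2 : (m * K * (j : ℝ) ^ 20) * (4 / η) * (η / 4) ≤ 2 ^ j * (η / 4) :=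
      mul_le_mul_of_nonneg_right hB (by positivity)
    have h3 : 4 / η * (η / 4) = 1 := by field_simp
    rw [mul_assoc, h3, mul_one] at h2
    linarith
  have e3 : m * K ≤ η / 4 * (j : ℝ) ^ 4 := by
    have h1 : m * K * 4 / η = m * K * (4 / η) := by ring
    rw [h1] at hC
    have h2 : m * K * (4 / η) * (η / 4) ≤ j * (η / 4) :=
      mul_le_mul_of_nonneg_right hC (by positivity)
    have h3 : 4 / η * (η / 4) = 1 := by field_simp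
    rw [mul_assoc, h3, mul_one] at h2
    have h4 : (j : ℝ) ≤ (j : ℝ) ^ 4 := le_self_pow₀ hjR (by norm_num)
    nlinarith
  have hj4 : (0 : ℝ) < (j : ℝ) ^ 4 := by positivity
  have hgoal : (m * ((2 : ℝ) ^ j * (K * (((j ^ 8) ^ 2 + 1 : ℕ) * G)) +
      (2 : ℝ) ^ j * (K * ((2 : ℝ) ^ j / ((j ^ 8 : ℕ) : ℝ) + ((j ^ 8 : ℕ) : ℝ) ^ 2)))) * (j : ℝ) ^ 4 ≤
      η * (2 ^ j) ^ 2 := by
    push_cast
    have f1 : ((j : ℝ) ^ 8) ^ 2 + 1 ≤ 2 * (j : ℝ) ^ 16 := by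
      have : (1 : ℝ) ≤ (j : ℝ) ^ 16 := one_le_pow₀ hjR
      nlinarith
    have f2 : (2 : ℝ) ^ j / (j : ℝ) ^ 8 * (j : ℝ) ^ 4 = (2 : ℝ) ^ j / (j : ℝ) ^ 4 := by
      field_simp
    have f3 : m * K * ((2 : ℝ) ^ j / (j : ℝ) ^ 4) ≤ η / 4 * 2 ^ j := by
      rw [mul_div_assoc', div_le_iff₀ hj4]
      nlinarith
    calc (m * ((2 : ℝ) ^ j * (K * ((((j : ℝ) ^ 8) ^ 2 + 1) * G)) +
        (2 : ℝ) ^ j * (K * ((2 : ℝ) ^ j / (j : ℝ) ^ 8 + ((j : ℝ) ^ 8) ^ 2)))) * (j : ℝ) ^ 4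
        = 2 ^ j * (m * K * ((((j : ℝ) ^ 8) ^ 2 + 1) * (G * (j : ℝ) ^ 4)) +
          m * K * ((2 : ℝ) ^ j / (j : ℝ) ^ 8 * (j : ℝ) ^ 4) + m * K * (j : ℝ) ^ 20) := by ring
      _ ≤ 2 ^ j * (m * K * (2 * (j : ℝ) ^ 16 * (G * (j : ℝ) ^ 4)) +
          m * K * ((2 : ℝ) ^ j / (j : ℝ) ^ 4) + m * K * (j : ℝ) ^ 20) := by
          rw [f2]
          refine mul_le_mul_of_nonneg_left ?_ hP.le
          refine add_le_add (add_le_add ?_ le_rfl) le_rfl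
          refine mul_le_mul_of_nonneg_left ?_ (by positivity)
          exact mul_le_mul_of_nonneg_right f1 (by positivity)
      _ = 2 ^ j * (m * K * 2 * (G * (j : ℝ) ^ 20) +
          m * K * ((2 : ℝ) ^ j / (j : ℝ) ^ 4) + m * K * (j : ℝ) ^ 20) := by ring
      _ ≤ 2 ^ j * (η / 4 * 2 ^ j + η / 4 * 2 ^ j + η / 4 * 2 ^ j) := by
          refine mul_le_mul_of_nonneg_left ?_ hP.le
          exact add_le_add (add_le_add e1 f3) e2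
      _ ≤ η * (2 ^ j) ^ 2 := by
          have : 0 < η * (2 ^ j) ^ 2 := by positivity
          nlinarith
  have h5 : η * ((2 : ℝ) ^ j / (j : ℝ) ^ 2) ^ 2 = η * (2 ^ j) ^ 2 / (j : ℝ) ^ 4 := by
    rw [div_pow]
    ring
  rw [h5, le_div_iff₀ hj4]
  exact hgoal

end Pool.Agent.K3h28.AF
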