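import Mathlib
import Pool.Agent.K3h28.AF.Asy

/-!
# Pairs of primes in a block
-/

set_option autoImplicit false

namespace Pool.Agent.K3h28.AF

open Finset Filter Topology

/-- the primes of a block -/
def pb (j : ℕ) : Finset ℕ := (blk j).filter Nat.Prime

/-- blocks with many primes -/
def rich (j : ℕ) : Prop := (2 : ℝ) ^ j / (j : ℝ) ^ 2 ≤ (pb j).card

theorem mem_pb {j p : ℕ} : p ∈ pb j ↔ p.Prime ∧ Nat.log 2 p = j := by
  rw [pb, Finset.mem_filter, blk, Finset.mem_Ico]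
  constructor
  · rintro ⟨⟨h1, h2⟩, h3⟩
    exact ⟨h3, (Nat.log_eq_iff (Or.inr ⟨by norm_num, h3.ne_zero⟩)).2 ⟨h1, h2⟩⟩
  · rintro ⟨h1, h2⟩
    exact ⟨(Nat.log_eq_iff (Or.inr ⟨by norm_num, h1.ne_zero⟩)).1 h2, h1⟩

theorem le_of_mem_pb {j p : ℕ} (h : p ∈ pb j) : 2 ^ j ≤ p := by
  rw [pb, Finset.mem_filter, blk, Finset.mem_Ico] at h
  exact h.1.1

theorem lt_of_mem_pb {j p : ℕ} (h : p ∈ pb j) : p < 2 ^ (j + 1) := by
  rw [pb, Finset.mem_filter, blk, Finset.mem_Ico] at h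
  exact h.1.2

/-- The rich blocks carry the divergence. -/
theorem exists_blocks (B : ℝ) (j₀ : ℕ) : ∃ J : Finset ℕ, (∀ j ∈ J, j₀ ≤ j ∧ rich j) ∧
    B ≤ ∑ j ∈ J, ∑ p ∈ pb j, (1 : ℝ) / p := by
  classical
  by_contra hcon
  push Not at hcon
  apply not_summable_one_div_on_primes
  have hs : Summable (fun j : ℕ => 1 / (j : ℝ) ^ 2) := by
    simp
  apply summable_of_sum_le (c := ∑ n ∈ range (2 ^ j₀), (1 : ℝ) / n + (B + ∑' j : ℕ, 1 / (j : ℝ) ^ 2))
  · intro n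
    simp only [Set.indicator]
    split_ifs
    · positivity
    · exact le_rfl
  · intro u
    have h1 : ∑ n ∈ u, Set.indicator {p : ℕ | p.Prime} (fun n : ℕ => (1 : ℝ) / n) n ≤
        ∑ n ∈ range (2 ^ j₀), (1 : ℝ) / n +
          ∑ n ∈ u.filter (fun n => n.Prime ∧ 2 ^ j₀ ≤ n), (1 : ℝ) / n := by
      rw [Finset.sum_filter]
      have h2 : ∑ n ∈ u, (if n < 2 ^ j₀ then (1 : ℝ) / n else 0) ≤
          ∑ n ∈ range (2 ^ j₀), (1 : ℝ) / n := by
        rw [← Finset.sum_filter]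
        apply Finset.sum_le_sum_of_subset_of_nonneg
        · intro n hn
          rw [Finset.mem_filter] at hn
          rw [Finset.mem_range]
          exact hn.2
        · intro n _ _
          positivity
      refine le_trans ?_ (add_le_add_left h2 _)
      rw [← Finset.sum_add_distrib]
      apply Finset.sum_le_sum
      intro n _
      simp only [Set.indicator, Set.mem_ofPred_eq]
      have hpos : (0 : ℝ) ≤ 1 / n := by positivity
      by_cases hn : n.Prime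
      · by_cases hy : 2 ^ j₀ ≤ n
        · simp [hn, hy, show ¬ n < 2 ^ j₀ by omega]
        · simp [hn, hy, show n < 2 ^ j₀ by omega]
      · simp only [hn, if_false, false_and]
        split_ifs <;> linarith
    refine h1.trans (add_le_add le_rfl ?_)
    set s := u.filter (fun n => n.Prime ∧ 2 ^ j₀ ≤ n) with hsdef
    set I := s.image (Nat.log 2) with hI
    have h2 : ∑ n ∈ s, (1 : ℝ) / n = ∑ j ∈ I, ∑ n ∈ s with Nat.log 2 n = j, (1 : ℝ) / n :=
      (Finset.sum_fiberwise_of_maps_to (fun n hn => Finset.mem_image_of_mem _ hn) _).symm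
    rw [h2]
    have hIj : ∀ j ∈ I, j₀ ≤ j := by
      intro j hj
      obtain ⟨n, hn, rfl⟩ := Finset.mem_image.1 hj
      rw [hsdef, Finset.mem_filter] at hn
      exact Nat.le_log_of_pow_le (by norm_num) hn.2.2
    have h3 : ∀ j ∈ I, ∑ n ∈ s with Nat.log 2 n = j, (1 : ℝ) / n ≤ ∑ p ∈ pb j, (1 : ℝ) / p := by
      intro j _
      apply Finset.sum_le_sum_of_subset_of_nonneg
      · intro n hn
        rw [Finset.mem_filter, hsdef, Finset.mem_filter] at hn
        exact mem_pb.2 ⟨hn.1.2.1, hn.2⟩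
      · intro n _ _
        positivity
    refine (Finset.sum_le_sum h3).trans ?_
    rw [← Finset.sum_filter_add_sum_filter_not I rich]
    refine add_le_add ?_ ?_
    · refine (hcon _ ?_).le
      intro j hj
      rw [Finset.mem_filter] at hj
      exact ⟨hIj j hj.1, hj.2⟩
    · have h4 : ∀ j ∈ I.filter (fun j => ¬ rich j), ∑ p ∈ pb j, (1 : ℝ) / p ≤ 1 / (j : ℝ) ^ 2 := by
        intro j hj
        rw [Finset.mem_filter] at hj
        have h5 := hj.2
        rw [rich, not_le] at h5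
        have h6 : ∑ p ∈ pb j, (1 : ℝ) / p ≤ ∑ _p ∈ pb j, (1 : ℝ) / 2 ^ j := by
          apply Finset.sum_le_sum
          intro p hp
          apply one_div_le_one_div_of_le (by positivity)
          exact_mod_cast le_of_mem_pb hp
        refine h6.trans ?_
        rw [Finset.sum_const, nsmul_eq_mul, mul_one_div, div_le_iff₀ (by positivity)]
        refine h5.le.trans (le_of_eq ?_)
        ring
      refine (Finset.sum_le_sum h4).trans ?_
      exact hs.sum_le_tsum _ (fun j _ => by positivity)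

/-- Turán's inequality: dense sets see the primes. -/
theorem weight (P : Finset ℕ) (hP : ∀ p ∈ P, p.Prime) (δ : ℝ) (hδ : 0 < δ)
    (hμδ : 16 ≤ δ ^ 2 * ∑ p ∈ P, (1 : ℝ) / p) (x : ℕ) (hx : 2 * P.card + 1 ≤ x) (A : Finset ℕ)
    (hA : A ⊆ Ioc 0 x) (hcard : δ * x ≤ A.card) :
    δ / 2 * (∑ p ∈ P, (1 : ℝ) / p) * x ≤ ∑ n ∈ A, ∑ p ∈ P, (if p ∣ n then (1 : ℝ) else 0) := by
  classical
  set μ : ℝ := ∑ p ∈ P, (1 : ℝ) / p with hμ
  set k := P.card with hk
  have hμ0 : 0 < μ := by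
    by_contra h
    push Not at h
    have : δ ^ 2 * μ ≤ 0 := mul_nonpos_of_nonneg_of_nonpos (by positivity) h
    linarith
  have hx0 : (0 : ℝ) < x := by exact_mod_cast (by omega : 0 < x)
  have hxk : 2 * (k : ℝ) ≤ x := by exact_mod_cast (by omega : 2 * k ≤ x)
  have hdiv : ∀ p, ∑ n ∈ Ioc 0 x, (if p ∣ n then (1 : ℝ) else 0) = ((x / p : ℕ) : ℝ) := by
    intro p
    rw [← Finset.sum_filter, Finset.sum_const, nsmul_eq_mul, mul_one, Nat.Ioc_filter_dvd_card_eq_div]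
  set ω : ℕ → ℝ := fun n => ∑ p ∈ P, (if p ∣ n then (1 : ℝ) else 0) with hω
  have hm1 : μ * x - k ≤ ∑ n ∈ Ioc 0 x, ω n := by
    rw [hω, Finset.sum_comm]
    simp only [hdiv]
    rw [hμ, Finset.sum_mul, hk, Finset.card_eq_sum_ones]
    push_cast
    rw [← Finset.sum_sub_distrib]
    apply Finset.sum_le_sum
    intro p hp
    have hp0 : (0 : ℝ) < p := by exact_mod_cast (hP p hp).pos
    have := Nat.lt_div_mul_add (a := x) (hP p hp).pos
    have h2 : (x : ℝ) < (x / p : ℕ) * p + p := by exact_mod_cast this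
    rw [one_div, sub_le_iff_le_add, inv_mul_le_iff₀ hp0]
    nlinarith
  have hm2 : ∑ n ∈ Ioc 0 x, ω n ^ 2 ≤ μ ^ 2 * x + μ * x := by
    have e1 : ∀ n, ω n ^ 2 = ∑ p ∈ P, ∑ q ∈ P, (if p ∣ n ∧ q ∣ n then (1 : ℝ) else 0) := by
      intro n
      rw [hω, sq, Finset.sum_mul_sum]
      apply Finset.sum_congr rfl
      intro p _
      apply Finset.sum_congr rfl
      intro q _
      by_cases h1 : p ∣ n <;> by_cases h2 : q ∣ n <;> simp [h1, h2]
    simp only [e1]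
    rw [Finset.sum_comm]
    have e2 : ∀ p ∈ P, ∑ n ∈ Ioc 0 x, ∑ q ∈ P, (if p ∣ n ∧ q ∣ n then (1 : ℝ) else 0) ≤
        (1 / p) * μ * x + (1 / p) * x := by
      intro p hp
      have hp0 : (0 : ℝ) < p := by exact_mod_cast (hP p hp).pos
      rw [Finset.sum_comm]
      have e3 : ∀ q ∈ P, ∑ n ∈ Ioc 0 x, (if p ∣ n ∧ q ∣ n then (1 : ℝ) else 0) ≤
          (1 / p) * (1 / q) * x + (if q = p then ((1 : ℝ) / p) * x else 0) := by
        intro q hq
        have hq0 : (0 : ℝ) < q := by exact_mod_cast (hP q hq).pos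
        by_cases hqp : q = p
        · rw [if_pos hqp, hqp]
          simp only [and_self]
          rw [hdiv]
          have h4 : ((x / p : ℕ) : ℝ) ≤ x / p := Nat.cast_div_le
          have h5 : (0 : ℝ) ≤ 1 / p * (1 / p) * x := by positivity
          calc ((x / p : ℕ) : ℝ) ≤ x / p := h4
            _ = 1 / p * x := by ring
            _ ≤ _ := by linarith
        · rw [if_neg hqp, add_zero]
          have hcop : Nat.Coprime p q := (Nat.coprime_primes (hP p hp) (hP q hq)).2 (fun h => hqp h.symm)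
          have h6 : ∀ n, (p ∣ n ∧ q ∣ n) ↔ p * q ∣ n := fun n =>
            ⟨fun h => hcop.mul_dvd_of_dvd_of_dvd h.1 h.2,
              fun h => ⟨(dvd_mul_right _ _).trans h, (dvd_mul_left _ _).trans h⟩⟩
          simp only [h6]
          rw [hdiv]
          calc ((x / (p * q) : ℕ) : ℝ) ≤ (x : ℝ) / ((p * q : ℕ) : ℝ) := Nat.cast_div_le
            _ = 1 / p * (1 / q) * x := by push_cast; field_simp
      refine (Finset.sum_le_sum e3).trans ?_
      rw [Finset.sum_add_distrib, Finset.sum_ite_eq' P p, if_pos hp, ← Finset.sum_mul, ← Finset.mul_sum]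
    refine (Finset.sum_le_sum e2).trans ?_
    rw [Finset.sum_add_distrib, ← Finset.sum_mul, ← Finset.sum_mul, ← Finset.sum_mul, ← hμ]
    apply le_of_eq
    ring
  have hV : ∑ n ∈ Ioc 0 x, (ω n - μ) ^ 2 ≤ 2 * μ * x := by
    have e1 : ∑ n ∈ Ioc 0 x, (ω n - μ) ^ 2 = ∑ n ∈ Ioc 0 x, ω n ^ 2 -
        2 * μ * ∑ n ∈ Ioc 0 x, ω n + μ ^ 2 * x := by
      rw [Finset.mul_sum, ← Finset.sum_sub_distrib]
      have : μ ^ 2 * (x : ℝ) = ∑ _n ∈ Ioc 0 x, μ ^ 2 := by simp [mul_comm]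
      rw [this, ← Finset.sum_add_distrib]
      apply Finset.sum_congr rfl
      intro n _
      ring
    rw [e1]
    nlinarith
  have hAx : (A.card : ℝ) ≤ x := by
    have := Finset.card_le_card hA
    rw [Nat.card_Ioc] at this
    exact_mod_cast this
  by_contra hcon
  push Not at hcon
  have h1 : ∑ n ∈ A, (μ - ω n) = A.card * μ - ∑ n ∈ A, ω n := by
    rw [Finset.sum_sub_distrib]; simp
  have h2 : δ / 2 * μ * x < ∑ n ∈ A, (μ - ω n) := by
    rw [h1]
    nlinarith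
  have h3 : (∑ n ∈ A, (μ - ω n)) ^ 2 ≤ A.card * ∑ n ∈ A, (μ - ω n) ^ 2 := sq_sum_le_card_mul_sum_sq
  have h4 : ∑ n ∈ A, (μ - ω n) ^ 2 ≤ 2 * μ * x := by
    refine le_trans ?_ hV
    calc ∑ n ∈ A, (μ - ω n) ^ 2 = ∑ n ∈ A, (ω n - μ) ^ 2 := by
          apply Finset.sum_congr rfl; intro n _; ring
      _ ≤ _ := Finset.sum_le_sum_of_subset_of_nonneg hA (fun n _ _ => sq_nonneg _)
  have h5 : (δ / 2 * μ * x) ^ 2 < (∑ n ∈ A, (μ - ω n)) ^ 2 := by
    apply pow_lt_pow_left₀ h2 (by positivity) (by norm_num)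
  have h6 : (A.card : ℝ) * ∑ n ∈ A, (μ - ω n) ^ 2 ≤ x * (2 * μ * x) := by
    apply mul_le_mul hAx h4 (Finset.sum_nonneg (fun n _ => sq_nonneg _)) hx0.le
  have h7 : (δ / 2 * μ * x) ^ 2 < x * (2 * μ * x) := h5.trans_le (h3.trans h6)
  have h8 : (δ / 2 * μ * x) ^ 2 = (δ ^ 2 * μ) * (μ * x ^ 2) / 4 := by ring
  rw [h8] at h7
  have h9 : 0 < μ * (x : ℝ) ^ 2 := by positivity
  nlinarith

theorem arith_block (δ k x R δ' : ℝ) (hδ : 0 < δ) (hk : 0 < k) (hx : 0 < x) (hR : 0 < R)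
    (hδ' : δ' * R ≤ δ ^ 2 / 64)
    (h1 : (δ * k * x / (4 * R)) ^ 2 ≤
      x / R * (δ ^ 2 / 64 * k ^ 2 * (x / R) + k ^ 2 * (δ' * x))) : False := by
  have h2 : x / R * (δ ^ 2 / 64 * k ^ 2 * (x / R) + k ^ 2 * (δ' * x)) =
      (k * x / R) ^ 2 * (δ ^ 2 / 64 + δ' * R) := by
    field_simp
  have h3 : (δ * k * x / (4 * R)) ^ 2 = (k * x / R) ^ 2 * (δ ^ 2 / 16) := by
    field_simp
    ring
  rw [h2, h3] at h1
  have h4 : 0 < (k * x / R) ^ 2 := by positivity
  have h5 : δ ^ 2 / 16 ≤ δ ^ 2 / 64 + δ' * R := le_of_mul_le_mul_left h1 h4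
  have h6 : 0 < δ ^ 2 := by positivity
  linarith

open Classical in
/-- One block. -/
theorem block_step (Bd : ℕ → ℕ → Prop) (δ : ℝ) (hδ : 0 < δ) (j : ℕ) (hk0 : 0 < (pb j).card)
    (hbad : ((((pb j) ×ˢ (pb j)).filter fun y => y.1 = y.2 ∨ Bd y.1 y.2).card : ℝ) ≤
      δ ^ 2 / 64 * ((pb j).card : ℝ) ^ 2) (δ' : ℝ) (hδ0 : 0 ≤ δ') (hδ' : δ' * 2 ^ j ≤ δ ^ 2 / 64) (x : ℕ)
    (hx : 0 < x) (A : Finset ℕ) (hA : A ⊆ Ioc 0 x)
    (hw : δ / 2 * (∑ p ∈ pb j, (1 : ℝ) / p) * x ≤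
      ∑ p ∈ pb j, ((A.filter fun n => p ∣ n).card : ℝ)) :
    ∃ p ∈ pb j, ∃ q ∈ pb j, p ≠ q ∧ ¬ Bd p q ∧
      δ' * x ≤ ((Ioc 0 x).filter (fun m => p * m ∈ A ∧ q * m ∈ A)).card := by
  set k : ℝ := ((pb j).card : ℝ) with hk
  have hkR : 0 < k := by rw [hk]; exact_mod_cast hk0
  have hx0 : (0 : ℝ) < x := by exact_mod_cast hx
  set R : ℝ := (2 : ℝ) ^ j with hR
  have hR0 : 0 < R := by positivity
  set C : ℕ → Finset ℕ := fun p => (Ioc 0 (x / 2 ^ j)).filter fun m => p * m ∈ A with hC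
  have hCc : ∀ p ∈ pb j, ((A.filter fun n => p ∣ n).card : ℝ) = (C p).card := by
    intro p hp
    have hp0 : 0 < p := (mem_pb.1 hp).1.pos
    congr 1
    symm
    refine Finset.card_bij (fun m _ => p * m) ?_ ?_ ?_
    · intro m hm
      rw [hC, Finset.mem_filter] at hm
      rw [Finset.mem_filter]
      exact ⟨hm.2, dvd_mul_right _ _⟩
    · intro m _ m' _ h
      exact Nat.eq_of_mul_eq_mul_left hp0 h
    · intro n hn
      rw [Finset.mem_filter] at hn
      obtain ⟨m, rfl⟩ := hn.2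
      have h1 := hA hn.1
      rw [Finset.mem_Ioc] at h1
      refine ⟨m, ?_, rfl⟩
      rw [hC, Finset.mem_filter, Finset.mem_Ioc]
      refine ⟨⟨?_, ?_⟩, hn.1⟩
      · rcases Nat.eq_zero_or_pos m with h | h
        · subst h; simp at h1
        · exact h
      · rw [Nat.le_div_iff_mul_le (by positivity)]
        calc m * 2 ^ j ≤ m * p := Nat.mul_le_mul_left _ (le_of_mem_pb hp)
          _ = p * m := mul_comm _ _
          _ ≤ x := h1.2
  have hμ : k / (2 * R) ≤ ∑ p ∈ pb j, (1 : ℝ) / p := by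
    have h1 : ∑ _p ∈ pb j, (1 : ℝ) / (2 * R) ≤ ∑ p ∈ pb j, (1 : ℝ) / p := by
      apply Finset.sum_le_sum
      intro p hp
      have hp0 : (0 : ℝ) < p := by exact_mod_cast (mem_pb.1 hp).1.pos
      apply one_div_le_one_div_of_le hp0
      have h2 := (lt_of_mem_pb hp).le
      rw [pow_succ'] at h2
      rw [hR]
      exact_mod_cast h2
    refine le_trans (le_of_eq ?_) h1
    rw [Finset.sum_const, nsmul_eq_mul, mul_one_div]
  set Ω := Ioc 0 (x / 2 ^ j) with hΩ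
  have hΩc : (Ω.card : ℝ) ≤ x / R := by
    rw [hΩ, Nat.card_Ioc, Nat.sub_zero]
    have := Nat.cast_div_le (α := ℝ) (m := x) (n := 2 ^ j)
    push_cast at this
    exact this
  set f : ℕ → ℝ := fun m => ∑ p ∈ pb j, (if m ∈ C p then (1 : ℝ) else 0) with hf
  have hind : ∀ S : Finset ℕ, S ⊆ Ω → ∑ n ∈ Ω, (if n ∈ S then (1 : ℝ) else 0) = S.card := by
    intro S hS
    rw [← Finset.sum_filter, Finset.sum_const, nsmul_eq_mul, mul_one, Finset.filter_mem_eq_inter,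
      Finset.inter_eq_right.2 hS]
  have hfsum : ∑ m ∈ Ω, f m = ∑ p ∈ pb j, ((C p).card : ℝ) := by
    rw [hf, Finset.sum_comm]
    exact Finset.sum_congr rfl fun p _ => hind _ (Finset.filter_subset _ _)
  have hlow : δ * k * x / (4 * R) ≤ ∑ m ∈ Ω, f m := by
    rw [hfsum, ← Finset.sum_congr rfl hCc]
    refine le_trans ?_ hw
    calc δ * k * x / (4 * R) = δ / 2 * (k / (2 * R)) * x := by field_simp; ring
      _ ≤ δ / 2 * (∑ p ∈ pb j, (1 : ℝ) / p) * x := by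
        refine mul_le_mul_of_nonneg_right ?_ hx0.le
        exact mul_le_mul_of_nonneg_left hμ (by positivity)
  have hCS : (∑ m ∈ Ω, f m) ^ 2 ≤ Ω.card * ∑ m ∈ Ω, f m ^ 2 := sq_sum_le_card_mul_sum_sq
  have hf2 : ∑ m ∈ Ω, f m ^ 2 = ∑ p ∈ pb j, ∑ q ∈ pb j, ((C p ∩ C q).card : ℝ) := by
    have e1 : ∀ m, f m ^ 2 = ∑ v ∈ pb j, ∑ w ∈ pb j, (if m ∈ C v ∩ C w then (1 : ℝ) else 0) := by
      intro m
      rw [hf, sq, Finset.sum_mul_sum]
      apply Finset.sum_congr rfl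
      intro p _
      apply Finset.sum_congr rfl
      intro q _
      by_cases h1 : m ∈ C p <;> by_cases h2 : m ∈ C q <;> simp [h1, h2]
    simp only [e1]
    rw [Finset.sum_comm]
    apply Finset.sum_congr rfl
    intro v _
    rw [Finset.sum_comm]
    apply Finset.sum_congr rfl
    intro w _
    exact hind _ (Finset.inter_subset_left.trans (Finset.filter_subset _ _))
  by_contra hcon
  push Not at hcon
  have hpair : ∀ p ∈ pb j, ∀ q ∈ pb j, ((C p ∩ C q).card : ℝ) ≤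
      (if p = q ∨ Bd p q then x / R else 0) + δ' * x := by
    intro p hp q hq
    by_cases h : p = q ∨ Bd p q
    · rw [if_pos h]
      have h1 : ((C p ∩ C q).card : ℝ) ≤ x / R := by
        refine le_trans ?_ hΩc
        exact_mod_cast Finset.card_le_card (Finset.inter_subset_left.trans (Finset.filter_subset _ _))
      have h3 : 0 ≤ δ' * x := by positivity
      linarith
    · rw [if_neg h, zero_add]
      push Not at h
      refine le_trans ?_ (hcon p hp q hq h.1 h.2).le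
      have h1 : C p ∩ C q ⊆ (Ioc 0 x).filter (fun m => p * m ∈ A ∧ q * m ∈ A) := by
        intro m hm
        rw [Finset.mem_inter, hC, Finset.mem_filter, Finset.mem_filter, Finset.mem_Ioc] at hm
        rw [Finset.mem_filter, Finset.mem_Ioc]
        exact ⟨⟨hm.1.1.1, hm.1.1.2.trans (Nat.div_le_self _ _)⟩, hm.1.2, hm.2.2⟩
      exact_mod_cast Finset.card_le_card h1
  have hsum : ∑ p ∈ pb j, ∑ q ∈ pb j, ((C p ∩ C q).card : ℝ) ≤
      δ ^ 2 / 64 * k ^ 2 * (x / R) + k ^ 2 * (δ' * x) := by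
    have h1 : ∑ p ∈ pb j, ∑ q ∈ pb j, ((C p ∩ C q).card : ℝ) ≤
        ∑ p ∈ pb j, ∑ q ∈ pb j, ((if p = q ∨ Bd p q then x / R else 0) + δ' * x) :=
      Finset.sum_le_sum fun p hp => Finset.sum_le_sum fun q hq => hpair p hp q hq
    refine h1.trans ?_
    rw [← Finset.sum_product', Finset.sum_add_distrib, Finset.sum_const, nsmul_eq_mul,
      Finset.card_product, ← Finset.sum_filter, Finset.sum_const, nsmul_eq_mul]
    push_cast
    rw [← hk]
    have h2 : ((((pb j) ×ˢ (pb j)).filter fun y => y.1 = y.2 ∨ Bd y.1 y.2).card : ℝ) * (x / R) ≤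
        δ ^ 2 / 64 * k ^ 2 * (x / R) := mul_le_mul_of_nonneg_right hbad (by positivity)
    have h3 : k * k * (δ' * x) = k ^ 2 * (δ' * x) := by ring
    rw [h3]
    exact add_le_add h2 le_rfl
  rw [hf2] at hCS
  have h1 : (δ * k * x / (4 * R)) ^ 2 ≤ x / R * (δ ^ 2 / 64 * k ^ 2 * (x / R) + k ^ 2 * (δ' * x)) := by
    have h0 : (0 : ℝ) ≤ δ * k * x / (4 * R) := by positivity
    have h00 : (0 : ℝ) ≤ ∑ p ∈ pb j, ∑ q ∈ pb j, ((C p ∩ C q).card : ℝ) :=
      Finset.sum_nonneg fun _ _ => Finset.sum_nonneg fun _ _ => Nat.cast_nonneg _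
    calc (δ * k * x / (4 * R)) ^ 2 ≤ (∑ m ∈ Ω, f m) ^ 2 := pow_le_pow_left₀ h0 hlow 2
      _ ≤ Ω.card * ∑ p ∈ pb j, ∑ q ∈ pb j, ((C p ∩ C q).card : ℝ) := hCS
      _ ≤ x / R * ∑ p ∈ pb j, ∑ q ∈ pb j, ((C p ∩ C q).card : ℝ) :=
        mul_le_mul_of_nonneg_right hΩc h00
      _ ≤ _ := mul_le_mul_of_nonneg_left hsum (by positivity)
  exact arith_block δ k x R δ' hδ hkR hx0 hR0 hδ' h1

open Classical in
/-- **One step.** -/
theorem one_step {M : Type} [Fintype M] {F : M → ℕ → ℤ} {w₀ K E : ℕ} (hF : Nice F w₀ K E)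
    (δ : ℝ) (hδ : 0 < δ) (w : ℕ) (hw : w₀ ≤ w) : ∃ (P : Finset ℕ) (δ' : ℝ) (x₀ : ℕ), 0 < δ' ∧
    (∀ p ∈ P, p.Prime ∧ w < p) ∧ ∀ x ≥ x₀, ∀ A : Finset ℕ, A ⊆ Ioc 0 x → δ * x ≤ A.card →
      ∃ p ∈ P, ∃ q ∈ P, p ≠ q ∧ ¬ Bad F w p q ∧
        δ' * x ≤ ((Ioc 0 x).filter (fun m => p * m ∈ A ∧ q * m ∈ A)).card := by
  set η : ℝ := δ ^ 2 / 64 with hη
  have hη0 : 0 < η := by positivity
  obtain ⟨j₁, hj₁⟩ := bad_rare hF w hw (η / 2) (by positivity)
  obtain ⟨j₂, hj₂⟩ := ev_poly (2 / η) 2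
  obtain ⟨J, hJ, hM⟩ := exists_blocks (16 / δ ^ 2) (max (max j₁ j₂) (w + 1))
  have hdisj : (J : Set ℕ).PairwiseDisjoint pb := by
    intro i _ j _ hij
    rw [Function.onFun, Finset.disjoint_left]
    intro p hp hp'
    exact hij ((mem_pb.1 hp).2.symm.trans (mem_pb.1 hp').2)
  set P := J.biUnion pb with hP
  have hPp : ∀ p ∈ P, p.Prime ∧ w < p := by
    intro p hp
    obtain ⟨j, hj, hpj⟩ := Finset.mem_biUnion.1 hp
    refine ⟨(mem_pb.1 hpj).1, ?_⟩
    have h1 : w + 1 ≤ j := (le_max_right _ _).trans (hJ j hj).1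
    have h2 := le_of_mem_pb hpj
    have h3 : j < 2 ^ j := Nat.lt_two_pow_self
    omega
  have hμ : ∑ p ∈ P, (1 : ℝ) / p = ∑ j ∈ J, ∑ p ∈ pb j, (1 : ℝ) / p := by
    rw [hP, Finset.sum_biUnion hdisj]
  rw [← hμ] at hM
  have hμδ : 16 ≤ δ ^ 2 * ∑ p ∈ P, (1 : ℝ) / p := by
    rw [div_le_iff₀ (by positivity)] at hM
    linarith
  refine ⟨P, η / 2 ^ (J.sup id), 2 * P.card + 1, by positivity, hPp, ?_⟩
  intro x hx A hA hcard
  have hwt := weight P (fun p hp => (hPp p hp).1) δ hδ hμδ x hx A hA hcard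
  have h1 : ∑ n ∈ A, ∑ p ∈ P, (if p ∣ n then (1 : ℝ) else 0) =
      ∑ j ∈ J, ∑ p ∈ pb j, ((A.filter fun n => p ∣ n).card : ℝ) := by
    rw [Finset.sum_comm, hP, Finset.sum_biUnion hdisj]
    refine Finset.sum_congr rfl fun j _ => Finset.sum_congr rfl fun p _ => ?_
    rw [← Finset.sum_filter, Finset.sum_const, nsmul_eq_mul, mul_one]
  rw [h1, hμ] at hwt
  have h2 : δ / 2 * (∑ j ∈ J, ∑ p ∈ pb j, (1 : ℝ) / p) * x =
      ∑ j ∈ J, δ / 2 * (∑ p ∈ pb j, (1 : ℝ) / p) * x := by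
    rw [Finset.mul_sum, Finset.sum_mul]
  rw [h2] at hwt
  have hJne : J.Nonempty := by
    rw [Finset.nonempty_iff_ne_empty]
    intro h
    rw [hP, h, Finset.biUnion_empty, Finset.sum_empty] at hM
    have : 0 < 16 / δ ^ 2 := by positivity
    linarith
  obtain ⟨j, hj, hjw⟩ := Finset.exists_le_of_sum_le hJne hwt
  have hjj := (hJ j hj).1
  have hjr := (hJ j hj).2
  have hj1 : j₁ ≤ j := ((le_max_left _ _).trans (le_max_left _ _)).trans hjj
  have hj2 : j₂ ≤ j := ((le_max_right _ _).trans (le_max_left _ _)).trans hjj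
  have hj3 : w + 1 ≤ j := (le_max_right _ _).trans hjj
  have hj0 : (0 : ℝ) < j := by exact_mod_cast (by omega : 0 < j)
  rw [rich] at hjr
  have hk0R : (0 : ℝ) < (pb j).card := lt_of_lt_of_le (by positivity) hjr
  have hk0 : 0 < (pb j).card := by exact_mod_cast hk0R
  have hbad : ((((pb j) ×ˢ (pb j)).filter fun y => y.1 = y.2 ∨ Bad F w y.1 y.2).card : ℝ) ≤
      δ ^ 2 / 64 * ((pb j).card : ℝ) ^ 2 := by
    have h3 : ((pb j) ×ˢ (pb j)).filter (fun y => y.1 = y.2 ∨ Bad F w y.1 y.2) ⊆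
        (pb j).image (fun p => (p, p)) ∪
          ((blk j) ×ˢ (blk j)).filter (fun y => Bad F w y.1 y.2) := by
      intro y hy
      rw [Finset.mem_filter, Finset.mem_product] at hy
      rw [Finset.mem_union]
      rcases hy.2 with h | h
      · left
        rw [Finset.mem_image]
        exact ⟨y.1, hy.1.1, Prod.ext rfl h⟩
      · right
        rw [Finset.mem_filter, Finset.mem_product]
        exact ⟨⟨(Finset.mem_filter.1 hy.1.1).1, (Finset.mem_filter.1 hy.1.2).1⟩, h⟩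
    have h4 := (Finset.card_le_card h3).trans (Finset.card_union_le _ _)
    have h5 : ((pb j).image (fun p => (p, p))).card ≤ (pb j).card := Finset.card_image_le
    have h6 : ((((pb j) ×ˢ (pb j)).filter fun y => y.1 = y.2 ∨ Bad F w y.1 y.2).card : ℝ) ≤
        (pb j).card + ((((blk j) ×ˢ (blk j)).filter fun y => Bad F w y.1 y.2).card : ℝ) := by
      exact_mod_cast h4.trans (Nat.add_le_add_right h5 _)
    refine h6.trans ?_
    have h7 := hj₁ j hj1
    have h8 : (2 : ℝ) ^ j / (j : ℝ) ^ 2 ≤ (pb j).card := hjr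
    have h9 : ((2 : ℝ) ^ j / (j : ℝ) ^ 2) ^ 2 ≤ ((pb j).card : ℝ) ^ 2 :=
      pow_le_pow_left₀ (by positivity) h8 2
    have h10 : 2 / η ≤ (pb j).card := by
      refine le_trans ?_ h8
      rw [le_div_iff₀ (by positivity)]
      exact hj₂ j hj2
    have h11 : ((pb j).card : ℝ) ≤ η / 2 * ((pb j).card : ℝ) ^ 2 := by
      rw [div_le_iff₀ hη0] at h10
      nlinarith
    have h12 : η / 2 * ((2 : ℝ) ^ j / (j : ℝ) ^ 2) ^ 2 ≤ η / 2 * ((pb j).card : ℝ) ^ 2 :=
      mul_le_mul_of_nonneg_left h9 (by positivity)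
    have h13 := h7.trans h12
    calc ((pb j).card : ℝ) + ((((blk j) ×ˢ (blk j)).filter fun y => Bad F w y.1 y.2).card : ℝ)
        ≤ η / 2 * ((pb j).card : ℝ) ^ 2 + η / 2 * ((pb j).card : ℝ) ^ 2 := add_le_add h11 h13
      _ = η * ((pb j).card : ℝ) ^ 2 := by ring
  have hdens : η / 2 ^ (J.sup id) * 2 ^ j ≤ δ ^ 2 / 64 := by
    have h3 : (2 : ℝ) ^ j ≤ 2 ^ (J.sup id) :=
      pow_le_pow_right₀ (by norm_num) (Finset.le_sup (f := id) hj)
    rw [div_mul_eq_mul_div, div_le_iff₀ (by positivity)]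
    exact mul_le_mul_of_nonneg_left h3 hη0.le
  obtain ⟨p, hp, q, hq, hpq, hb, hc⟩ := block_step (Bad F w) δ hδ j hk0 hbad (η / 2 ^ (J.sup id))
    (by positivity) hdens x (by omega) A hA hjw
  exact ⟨p, Finset.mem_biUnion.2 ⟨j, hj, hp⟩, q, Finset.mem_biUnion.2 ⟨j, hj, hq⟩, hpq, hb, hc⟩

end Pool.Agent.K3h28.AF
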