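import Mathlib
import Pool.Agent.K3h28.AF.Step

/-!
# Multiplicative cubes in dense sets of integers, with separating primes
-/

set_option autoImplicit false

namespace Pool.Agent.K3h28.AF

open Finset

theorem inj_cons {r : ℕ} (p q : ℕ) (p' q' : Fin r → ℕ) (B : ℕ) (hpq : p ≠ q) (hp : p ≤ B)
    (hq : q ≤ B) (hp' : ∀ i, B < p' i) (hq' : ∀ i, B < q' i)
    (hinj : Function.Injective (Sum.elim p' q')) :
    Function.Injective (Sum.elim (Fin.cons p p' : Fin (r + 1) → ℕ) (Fin.cons q q' : Fin (r + 1) → ℕ)) := by
  intro i j hij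
  rcases i with i | i <;> rcases j with j | j <;> simp only [Sum.elim_inl, Sum.elim_inr] at hij
  · refine congrArg Sum.inl ?_
    induction i using Fin.cases with
    | zero =>
      induction j using Fin.cases with
      | zero => rfl
      | succ j =>
        simp only [Fin.cons_zero, Fin.cons_succ] at hij
        have := hp' j; omega
    | succ i =>
      induction j using Fin.cases with
      | zero =>
        simp only [Fin.cons_zero, Fin.cons_succ] at hij
        have := hp' i; omega
      | succ j =>
        simp only [Fin.cons_succ] at hij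
        have := hinj (a₁ := Sum.inl i) (a₂ := Sum.inl j) hij
        rw [Sum.inl.inj this]
  · exfalso
    induction i using Fin.cases with
    | zero =>
      induction j using Fin.cases with
      | zero => simp only [Fin.cons_zero] at hij; exact hpq hij
      | succ j =>
        simp only [Fin.cons_zero, Fin.cons_succ] at hij
        have := hq' j; omega
    | succ i =>
      induction j using Fin.cases with
      | zero =>
        simp only [Fin.cons_zero, Fin.cons_succ] at hij
        have := hp' i; omega
      | succ j =>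
        simp only [Fin.cons_succ] at hij
        have := hinj (a₁ := Sum.inl i) (a₂ := Sum.inr j) hij
        exact absurd this (by simp)
  · exfalso
    induction i using Fin.cases with
    | zero =>
      induction j using Fin.cases with
      | zero => simp only [Fin.cons_zero] at hij; exact hpq hij.symm
      | succ j =>
        simp only [Fin.cons_zero, Fin.cons_succ] at hij
        have := hp' j; omega
    | succ i =>
      induction j using Fin.cases with
      | zero =>
        simp only [Fin.cons_zero, Fin.cons_succ] at hij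
        have := hq' i; omega
      | succ j =>
        simp only [Fin.cons_succ] at hij
        have := hinj (a₁ := Sum.inr i) (a₂ := Sum.inl j) hij
        exact absurd this (by simp)
  · refine congrArg Sum.inr ?_
    induction i using Fin.cases with
    | zero =>
      induction j using Fin.cases with
      | zero => rfl
      | succ j =>
        simp only [Fin.cons_zero, Fin.cons_succ] at hij
        have := hq' j; omega
    | succ i =>
      induction j using Fin.cases with
      | zero =>
        simp only [Fin.cons_zero, Fin.cons_succ] at hij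
        have := hq' i; omega
      | succ j =>
        simp only [Fin.cons_succ] at hij
        have := hinj (a₁ := Sum.inr i) (a₂ := Sum.inr j) hij
        rw [Sum.inr.inj this]

/-- **Multiplicative cubes in dense sets.** -/
theorem dense_cube {M : Type} [Fintype M] {F : M → ℕ → ℤ} {w₀ K E : ℕ} (hF : Nice F w₀ K E)
    (r : ℕ) : ∀ (δ : ℝ), 0 < δ → ∀ w : ℕ, w₀ ≤ w → ∃ x₀ : ℕ, ∀ x ≥ x₀, ∀ A : Finset ℕ,
    A ⊆ Ioc 0 x → δ * x ≤ A.card → ∃ (a : ℕ) (p q : Fin r → ℕ) (ρ : Fin r → M → ℕ), 0 < a ∧
      (∀ i, (p i).Prime ∧ w < p i) ∧ (∀ i, (q i).Prime ∧ w < q i) ∧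
      Function.Injective (Sum.elim p q) ∧
      (∀ i c, (ρ i c).Prime ∧ w < ρ i c ∧ (ρ i c : ℤ) ∣ F c (q i) ∧
        ∀ c', ¬ (ρ i c : ℤ) ∣ F c' (p i)) ∧
      (∀ i i', i' < i → ∀ c c', ¬ (ρ i c : ℤ) ∣ F c' (p i') ∧ ¬ (ρ i c : ℤ) ∣ F c' (q i')) ∧
      ∀ S : Finset (Fin r), a * ∏ i, (if i ∈ S then q i else p i) ∈ A := by
  classical
  induction r with
  | zero =>
    intro δ hδ w _
    refine ⟨1, fun x hx A hA hcard => ?_⟩
    have hx0 : (0 : ℝ) < x := by exact_mod_cast (by omega : 0 < x)
    have h1 : (0 : ℝ) < A.card := lt_of_lt_of_le (by positivity) hcard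
    obtain ⟨a, ha⟩ := Finset.card_pos.1 (by exact_mod_cast h1 : 0 < A.card)
    have ha' := hA ha
    rw [Finset.mem_Ioc] at ha'
    refine ⟨a, Fin.elim0, Fin.elim0, Fin.elim0, ha'.1, fun i => i.elim0, fun i => i.elim0, ?_,
      fun i => i.elim0, fun i => i.elim0, ?_⟩
    · intro i; rcases i with i | i <;> exact i.elim0
    · intro S; simpa using ha
  | succ r ih =>
    intro δ hδ w hw
    obtain ⟨P, δ', x₁, hδ', hP, hstep⟩ := one_step hF δ hδ w hw
    set w' : ℕ := w + P.sup id + ∑ p ∈ P, ∑ c, (F c p).natAbs with hw'
    obtain ⟨x₂, hx₂⟩ := ih δ' hδ' w' (by omega)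
    refine ⟨max x₁ x₂, fun x hx A hA hcard => ?_⟩
    obtain ⟨p, hp, q, hq, hpq, hgood, hB⟩ := hstep x (le_trans (le_max_left _ _) hx) A hA hcard
    obtain ⟨a, p', q', ρ', ha, hp', hq', hinj, hρ1, hρ2, hcube⟩ :=
      hx₂ x (le_trans (le_max_right _ _) hx) _ (Finset.filter_subset _ _) hB
    have hple : ∀ p ∈ P, p ≤ w' := fun p hp => by
      have := Finset.le_sup (f := id) hp
      simp only [id] at this
      omega
    have hFle : ∀ p ∈ P, ∀ c, (F c p).natAbs ≤ w' := by
      intro p hp c
      have h1 : (F c p).natAbs ≤ ∑ c, (F c p).natAbs :=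
        Finset.single_le_sum (f := fun c => (F c p).natAbs) (fun _ _ => Nat.zero_le _) (Finset.mem_univ c)
      have h2 : ∑ c, (F c p).natAbs ≤ ∑ p ∈ P, ∑ c, (F c p).natAbs :=
        Finset.single_le_sum (f := fun p => ∑ c, (F c p).natAbs) (fun _ _ => Nat.zero_le _) hp
      omega
    have hndvd : ∀ p ∈ P, ∀ c, ∀ s : ℕ, w' < s → ¬ (s : ℤ) ∣ F c p := by
      intro p hp c s hs hdvd
      have h1 : s ∣ (F c p).natAbs := Int.natCast_dvd.1 hdvd
      have h2 : (F c p).natAbs ≠ 0 :=
        Int.natAbs_ne_zero.2 (hF.ne_zero c p (hw.trans_lt (hP p hp).2))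
      have h3 := Nat.le_of_dvd (Nat.pos_of_ne_zero h2) h1
      have h4 := hFle p hp c
      omega
    rw [Bad] at hgood
    push Not at hgood
    choose ρ₀ h1 h2 h3 h4 using hgood
    refine ⟨a, Fin.cons p p', Fin.cons q q', Fin.cons ρ₀ ρ', ha, ?_, ?_, ?_, ?_, ?_, ?_⟩
    · intro i
      refine Fin.cases (hP p hp) (fun i => ?_) i
      exact ⟨(hp' i).1, by have := (hp' i).2; simp only [Fin.cons_succ]; omega⟩
    · intro i
      refine Fin.cases (hP q hq) (fun i => ?_) i
      exact ⟨(hq' i).1, by have := (hq' i).2; simp only [Fin.cons_succ]; omega⟩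
    · exact inj_cons p q p' q' w' hpq (hple p hp) (hple q hq) (fun i => (hp' i).2)
        (fun i => (hq' i).2) hinj
    · intro i
      refine Fin.cases ?_ (fun i => ?_) i
      · intro c
        exact ⟨h1 c, h2 c, h3 c, h4 c⟩
      · intro c
        obtain ⟨e1, e2, e3, e4⟩ := hρ1 i c
        simp only [Fin.cons_succ]
        exact ⟨e1, by omega, e3, e4⟩
    · intro i i' hii c c'
      induction i using Fin.cases with
      | zero => exact absurd hii (Fin.not_lt_zero _)
      | succ i =>
        induction i' using Fin.cases with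
        | zero =>
          simp only [Fin.cons_succ, Fin.cons_zero]
          exact ⟨hndvd p hp c' _ (hρ1 i c).2.1, hndvd q hq c' _ (hρ1 i c).2.1⟩
        | succ i' =>
          simp only [Fin.cons_succ]
          exact hρ2 i i' (Fin.succ_lt_succ_iff.1 hii) c c'
    · intro S
      have h5 := hcube (univ.filter (fun i : Fin r => i.succ ∈ S))
      rw [Finset.mem_filter] at h5
      rw [Fin.prod_univ_succ]
      simp only [Fin.cons_zero, Fin.cons_succ]
      have h6 : ∏ i : Fin r, (if i.succ ∈ S then q' i else p' i) =
          ∏ i : Fin r, (if i ∈ univ.filter (fun i : Fin r => i.succ ∈ S) then q' i else p' i) := by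
        apply Finset.prod_congr rfl
        intro i _
        simp
      rw [h6]
      by_cases h0 : (0 : Fin (r + 1)) ∈ S
      · rw [if_pos h0]
        have h7 := h5.2.2
        rw [mul_left_comm] at h7
        exact h7
      · rw [if_neg h0]
        have h7 := h5.2.1
        rw [mul_left_comm] at h7
        exact h7

end Pool.Agent.K3h28.AF
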