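import Mathlib

/-!
# Factorisation of multiplicatively independent polynomials
-/

set_option autoImplicit false

namespace Pool.Agent.K3h28.AF

open Finset Polynomial UniqueFactorizationMonoid

/-- The polynomials are multiplicatively independent modulo constants. -/
def MultIndep {M : Type} [Fintype M] (G : M → ℤ[X]) : Prop :=
  ∀ (u v : M → ℕ) (A B : ℤ), A ≠ 0 → B ≠ 0 → C A * ∏ c, G c ^ u c = C B * ∏ c, G c ^ v c → u = v

theorem MultIndep.ne_zero {M : Type} [Fintype M] {G : M → ℤ[X]} (h : MultIndep G) (c : M) :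
    G c ≠ 0 := by
  classical
  intro h0
  have h1 := h (Pi.single c 1) (Pi.single c 2) 1 1 one_ne_zero one_ne_zero (by
    rw [Finset.prod_eq_zero (Finset.mem_univ c), Finset.prod_eq_zero (Finset.mem_univ c)]
    · rw [Pi.single_eq_same, h0, zero_pow (by norm_num)]
    · rw [Pi.single_eq_same, h0, zero_pow (by norm_num)])
  have h2 := congrFun h1 c
  rw [Pi.single_eq_same, Pi.single_eq_same] at h2
  norm_num at h2

theorem decomp {M : Type} [Fintype M] (G : M → ℤ[X]) (hG : MultIndep G) :
    ∃ (b : ℕ) (H : Fin b → ℤ[X]) (e : M → Fin b → ℕ) (κ : M → ℝ),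
      (∀ i, 0 < (H i).natDegree) ∧
      (∀ i j, i ≠ j → IsCoprime ((H i).map (Int.castRingHom ℚ)) ((H j).map (Int.castRingHom ℚ))) ∧
      LinearIndependent ℤ (fun c i => (e c i : ℤ)) ∧
      ∀ c (n : ℕ), (∀ i, (H i).eval (n : ℤ) ≠ 0) → (G c).eval (n : ℤ) ≠ 0 ∧
        Real.log ((G c).eval (n : ℤ) : ℤ) =
          κ c + ∑ i, (e c i : ℝ) * Real.log ((H i).eval (n : ℤ) : ℤ) := by
  classical
  set φ := Int.castRingHom ℚ with hφ
  have hinj : Function.Injective (Polynomial.map φ) :=
    Polynomial.map_injective _ (RingHom.injective_int _)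
  set g : M → ℚ[X] := fun c => (G c).map φ with hg
  have hg0 : ∀ c, g c ≠ 0 := fun c h => by
    have h1 : (G c).map φ = (0 : ℤ[X]).map φ := by rw [Polynomial.map_zero]; exact h
    exact hG.ne_zero c (hinj h1)
  set S : Finset ℚ[X] := univ.biUnion fun c => (normalizedFactors (g c)).toFinset with hS
  have hSm : ∀ s ∈ S, Irreducible s ∧ s.Monic := by
    intro s hs
    rw [hS, Finset.mem_biUnion] at hs
    obtain ⟨c, -, hc⟩ := hs
    rw [Multiset.mem_toFinset, Polynomial.mem_normalizedFactors_iff (hg0 c)] at hc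
    exact ⟨hc.1, hc.2.1⟩
  set h : Fin S.card → ℚ[X] := fun i => (S.equivFin.symm i : ℚ[X]) with hh
  have hhS : ∀ i, h i ∈ S := fun i => (S.equivFin.symm i).2
  have hhinj : Function.Injective h := fun i j hij => S.equivFin.symm.injective (Subtype.ext hij)
  set e : M → Fin S.card → ℕ := fun c i => (normalizedFactors (g c)).count (h i) with he
  have hfac : ∀ c, g c = C (((G c).leadingCoeff : ℤ) : ℚ) * ∏ i, h i ^ e c i := by
    intro c
    have h1 := leadingCoeff_mul_prod_normalizedFactors (g c)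
    have h2 : (g c).leadingCoeff = (((G c).leadingCoeff : ℤ) : ℚ) := by
      rw [hg]
      simp only
      rw [Polynomial.leadingCoeff_map_of_injective (RingHom.injective_int _)]
      rfl
    rw [h2, Finset.prod_multiset_count_of_subset _ S (by
      intro s hs
      rw [hS, Finset.mem_biUnion]
      exact ⟨c, Finset.mem_univ _, hs⟩)] at h1
    rw [← h1]
    congr 1
    rw [← Finset.prod_coe_sort S (fun s => s ^ (normalizedFactors (g c)).count s)]
    rw [← (S.equivFin).symm.prod_comp]
  -- integral multiples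
  have hex : ∀ i, ∃ (N : ℤ) (H : ℤ[X]), N ≠ 0 ∧ H.map φ = C (N : ℚ) * h i := by
    intro i
    obtain ⟨N, hN, h1⟩ := IsLocalization.integerNormalization_spec (nonZeroDivisors ℤ) (h i)
    refine ⟨N, IsLocalization.integerNormalization (nonZeroDivisors ℤ) (h i),
      nonZeroDivisors.ne_zero hN, ?_⟩
    have h2 : (IsLocalization.integerNormalization (nonZeroDivisors ℤ) (h i)).map
        (algebraMap ℤ ℚ) = N • h i := h1
    rw [zsmul_eq_mul] at h2
    rw [show φ = algebraMap ℤ ℚ from rfl, h2]
    simp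
  choose N H hN hH using hex
  have hNQ : ∀ i, ((N i : ℤ) : ℚ) ≠ 0 := fun i => by exact_mod_cast hN i
  set κ : M → ℝ := fun c => Real.log ((G c).leadingCoeff : ℤ) -
    ∑ i, (e c i : ℝ) * Real.log (N i) with hκ
  refine ⟨S.card, H, e, κ, ?_, ?_, ?_, ?_⟩
  · intro i
    have h1 : (H i).natDegree = ((H i).map φ).natDegree :=
      (Polynomial.natDegree_map_eq_of_injective (RingHom.injective_int _) _).symm
    rw [h1, hH, Polynomial.natDegree_C_mul (hNQ i)]
    exact (hSm _ (hhS i)).1.natDegree_pos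
  · intro i j hij
    rw [hH, hH]
    have hu : ∀ i, IsUnit (C ((N i : ℤ) : ℚ)) := fun i =>
      Polynomial.isUnit_C.2 (isUnit_iff_ne_zero.2 (hNQ i))
    rw [isCoprime_mul_unit_left_left (hu i), isCoprime_mul_unit_left_right (hu j)]
    refine ((hSm _ (hhS i)).1.isCoprime_or_dvd (h j)).resolve_right ?_
    intro hdvd
    apply hij
    apply hhinj
    exact Polynomial.eq_of_monic_of_associated (hSm _ (hhS i)).2 (hSm _ (hhS j)).2
      ((hSm _ (hhS i)).1.associated_of_dvd (hSm _ (hhS j)).1 hdvd)
  · rw [Fintype.linearIndependent_iff]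
    intro γ hγ
    set u : M → ℕ := fun c => (γ c).toNat with hu
    set v : M → ℕ := fun c => (-γ c).toNat with hv
    have huv : ∀ c, ((u c : ℕ) : ℤ) - v c = γ c := fun c => by simp only [hu, hv]; omega
    have hsum : ∀ i, ∑ c, u c * e c i = ∑ c, v c * e c i := by
      intro i
      have h1 := congrFun hγ i
      rw [Finset.sum_apply] at h1
      simp only [Pi.smul_apply, smul_eq_mul, Pi.zero_apply] at h1
      have h2 : (((∑ c, u c * e c i : ℕ)) : ℤ) - ((∑ c, v c * e c i : ℕ) : ℤ) = 0 := by
        rw [← h1]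
        push_cast
        rw [← Finset.sum_sub_distrib]
        refine Finset.sum_congr rfl fun c _ => ?_
        rw [← huv c]
        ring
      omega
    have hprod : ∀ u : M → ℕ, ∏ c, g c ^ u c =
        C (((∏ c, (G c).leadingCoeff ^ u c : ℤ)) : ℚ) * ∏ i, h i ^ (∑ c, u c * e c i) := by
      intro u
      have h1 : ∀ c ∈ (univ : Finset M), g c ^ u c =
          C (((G c).leadingCoeff : ℤ) : ℚ) ^ u c * ∏ i, h i ^ (u c * e c i) := by
        intro c _
        rw [hfac c, mul_pow, ← Finset.prod_pow]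
        congr 1
        refine Finset.prod_congr rfl fun i _ => ?_
        rw [← pow_mul, mul_comm]
      rw [Finset.prod_congr rfl h1, Finset.prod_mul_distrib, Finset.prod_comm]
      congr 1
      · push_cast
        rw [map_prod]
        refine Finset.prod_congr rfl fun c _ => ?_
        rw [map_pow]
      · refine Finset.prod_congr rfl fun i _ => ?_
        rw [Finset.prod_pow_eq_pow_sum]
    have hlc : ∀ u : M → ℕ, ∏ c, (G c).leadingCoeff ^ u c ≠ 0 := fun u =>
      Finset.prod_ne_zero_iff.2 fun c _ => pow_ne_zero _ (leadingCoeff_ne_zero.2 (hG.ne_zero c))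
    have h3 := hG u v (∏ c, (G c).leadingCoeff ^ v c) (∏ c, (G c).leadingCoeff ^ u c) (hlc v) (hlc u)
      (by
        apply hinj
        simp only [Polynomial.map_mul, Polynomial.map_C, Polynomial.map_prod, Polynomial.map_pow]
        change C (φ _) * ∏ c, g c ^ u c = C (φ _) * ∏ c, g c ^ v c
        rw [hprod u, hprod v]
        have h4 : ∀ i, h i ^ (∑ c, u c * e c i) = h i ^ (∑ c, v c * e c i) := fun i => by
          rw [hsum i]
        rw [Finset.prod_congr rfl fun i _ => h4 i]
        simp only [hφ, eq_intCast]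
        ring)
    intro c
    have h4 := congrFun h3 c
    rw [← huv c, h4, sub_self]
  · intro c n hn
    have h1 : (((G c).eval (n : ℤ) : ℤ) : ℚ) = (((G c).leadingCoeff : ℤ) : ℚ) *
        ∏ i, ((((H i).eval (n : ℤ) : ℤ) : ℚ) / (N i : ℚ)) ^ e c i := by
      have h2 : (((G c).eval (n : ℤ) : ℤ) : ℚ) = (g c).eval (n : ℚ) := by
        have := Polynomial.eval_map_apply (f := φ) (p := G c) (n : ℤ)
        simp only [hφ, eq_intCast, Int.cast_natCast] at this
        exact this.symm
      have h3 : ∀ i, (((H i).eval (n : ℤ) : ℤ) : ℚ) = (N i : ℚ) * (h i).eval (n : ℚ) := by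
        intro i
        have h4 := Polynomial.eval_map_apply (f := φ) (p := H i) (n : ℤ)
        rw [hH] at h4
        simp only [hφ, eq_intCast, Int.cast_natCast, Polynomial.eval_mul, Polynomial.eval_C] at h4
        exact h4.symm
      rw [h2, hfac c, Polynomial.eval_mul, Polynomial.eval_C, Polynomial.eval_prod]
      congr 1
      refine Finset.prod_congr rfl fun i _ => ?_
      rw [Polynomial.eval_pow, h3 i, mul_div_cancel_left₀ _ (hNQ i)]
    have hR : (((G c).eval (n : ℤ) : ℤ) : ℝ) = (((G c).leadingCoeff : ℤ) : ℝ) *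
        ∏ i, ((((H i).eval (n : ℤ) : ℤ) : ℝ) / (N i : ℝ)) ^ e c i := by
      have := congrArg (fun z : ℚ => (z : ℝ)) h1
      push_cast at this
      exact this
    have hlc : (((G c).leadingCoeff : ℤ) : ℝ) ≠ 0 := by
      exact_mod_cast leadingCoeff_ne_zero.2 (hG.ne_zero c)
    have hHR : ∀ i, (((H i).eval (n : ℤ) : ℤ) : ℝ) ≠ 0 := fun i => by exact_mod_cast hn i
    have hNR : ∀ i, (N i : ℝ) ≠ 0 := fun i => by exact_mod_cast hN i
    have hne : ∀ i ∈ (univ : Finset (Fin S.card)),
        ((((H i).eval (n : ℤ) : ℤ) : ℝ) / (N i : ℝ)) ^ e c i ≠ 0 := fun i _ =>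
      pow_ne_zero _ (div_ne_zero (hHR i) (hNR i))
    refine ⟨?_, ?_⟩
    · intro h0
      rw [h0, Int.cast_zero] at hR
      exact mul_ne_zero hlc (Finset.prod_ne_zero_iff.2 hne) hR.symm
    · rw [hR, Real.log_mul hlc (Finset.prod_ne_zero_iff.2 hne), Real.log_prod hne, hκ]
      simp only
      rw [sub_add_eq_add_sub, add_sub_assoc, ← Finset.sum_sub_distrib]
      congr 1
      refine Finset.sum_congr rfl fun i _ => ?_
      rw [Real.log_pow, Real.log_div (hHR i) (hNR i)]
      ring

end Pool.Agent.K3h28.AF
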