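import Mathlib

/-!
# Linear independence of logarithms by separating primes
-/

set_option autoImplicit false

namespace Pool.Agent.K3h28.AF

open Finset

theorem padicValRat_prod {ι : Type*} (p : ℕ) [Fact p.Prime] (s : Finset ι) (f : ι → ℚ)
    (hf : ∀ i ∈ s, f i ≠ 0) :
    padicValRat p (∏ i ∈ s, f i) = ∑ i ∈ s, padicValRat p (f i) := by
  classical
  induction s using Finset.induction_on with
  | empty => simp
  | insert a s ha ih =>
    rw [Finset.prod_insert ha, Finset.sum_insert ha, padicValRat.mul (hf a (Finset.mem_insert_self _ _))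
      (Finset.prod_ne_zero_iff.2 fun i hi => hf i (Finset.mem_insert_of_mem hi)),
      ih fun i hi => hf i (Finset.mem_insert_of_mem hi)]

theorem val_rel {ι : Type*} [Fintype ι] (a b g : ι → ℤ) (ha : ∀ i, a i ≠ 0) (hb : ∀ i, b i ≠ 0)
    (h : ∑ i, (g i : ℝ) * (Real.log (a i) - Real.log (b i)) = 0) (p : ℕ) (hp : p.Prime) :
    ∑ i, g i * ((padicValInt p (a i) : ℤ) - padicValInt p (b i)) = 0 := by
  have : Fact p.Prime := ⟨hp⟩
  set R : ℚ := ∏ i, ((a i : ℚ) / b i) ^ g i with hR
  have ha' : ∀ i, (a i : ℚ) ≠ 0 := fun i => by exact_mod_cast ha i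
  have hb' : ∀ i, (b i : ℚ) ≠ 0 := fun i => by exact_mod_cast hb i
  have haR : ∀ i, (a i : ℝ) ≠ 0 := fun i => by exact_mod_cast ha i
  have hbR : ∀ i, (b i : ℝ) ≠ 0 := fun i => by exact_mod_cast hb i
  have hne : ∀ i ∈ (univ : Finset ι), ((a i : ℚ) / b i) ^ g i ≠ 0 := fun i _ =>
    zpow_ne_zero _ (div_ne_zero (ha' i) (hb' i))
  have hR0 : R ≠ 0 := Finset.prod_ne_zero_iff.2 hne
  have h1 : Real.log (R : ℝ) = 0 := by
    rw [hR]
    push_cast
    rw [Real.log_prod (fun i _ => zpow_ne_zero _ (div_ne_zero (haR i) (hbR i)))]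
    rw [← h]
    refine Finset.sum_congr rfl fun i _ => ?_
    rw [Real.log_zpow, Real.log_div (haR i) (hbR i)]
  have h2 : padicValRat p R = 0 := by
    rcases Real.log_eq_zero.1 h1 with h3 | h3 | h3
    · exact absurd (by exact_mod_cast h3) hR0
    · have h4 : R = 1 := by exact_mod_cast h3
      rw [h4, padicValRat.one]
    · have h4 : R = -1 := by exact_mod_cast h3
      rw [h4, padicValRat.neg, padicValRat.one]
  rw [hR, padicValRat_prod p univ _ hne] at h2
  rw [← h2]
  refine Finset.sum_congr rfl fun i _ => ?_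
  rw [padicValRat.zpow, padicValRat.div (ha' i) (hb' i), padicValRat.of_int, padicValRat.of_int]

/-- **Independent logarithms.** -/
theorem log_indep {M : Type} [Fintype M] (F : M → ℕ → ℤ) (r : ℕ) (p q : Fin r → ℕ)
    (ρ : Fin r → M → ℕ) (hp : ∀ i c, F c (p i) ≠ 0) (hq : ∀ i c, F c (q i) ≠ 0)
    (hρ : ∀ i c, (ρ i c).Prime) (h1 : ∀ i c, (ρ i c : ℤ) ∣ F c (q i))
    (h2 : ∀ i c c', c ≠ c' → ¬ (ρ i c : ℤ) ∣ F c' (q i))
    (h3 : ∀ i c c', ¬ (ρ i c : ℤ) ∣ F c' (p i))
    (h4 : ∀ i i', i' < i → ∀ c c', ¬ (ρ i c : ℤ) ∣ F c' (p i') ∧ ¬ (ρ i c : ℤ) ∣ F c' (q i')) :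
    LinearIndependent ℚ (fun z : Fin r × M =>
      ((Real.log (F z.2 (q z.1)) - Real.log (F z.2 (p z.1)) : ℝ) : ℂ)) := by
  classical
  rw [← LinearIndependent.iff_fractionRing ℤ ℚ, Fintype.linearIndependent_iff]
  intro g hg
  have hg' : ∑ z : Fin r × M, (g z : ℝ) *
      (Real.log (F z.2 (q z.1)) - Real.log (F z.2 (p z.1))) = 0 := by
    have h5 : ((∑ z : Fin r × M, (g z : ℝ) *
      (Real.log (F z.2 (q z.1)) - Real.log (F z.2 (p z.1))) : ℝ) : ℂ) = 0 := by
      rw [← hg]
      push_cast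
      refine Finset.sum_congr rfl fun z _ => ?_
      rw [zsmul_eq_mul]
    exact_mod_cast h5
  have hval := val_rel (fun z : Fin r × M => F z.2 (q z.1)) (fun z => F z.2 (p z.1)) g
    (fun z => hq z.1 z.2) (fun z => hp z.1 z.2) hg'
  -- descending induction
  have key : ∀ n : ℕ, ∀ i : Fin r, r ≤ n + i.1 → ∀ c, g (i, c) = 0 := by
    intro n
    induction n with
    | zero =>
      intro i hi
      have := i.2
      omega
    | succ n ih =>
      intro i hi c
      have hlater : ∀ i' : Fin r, i < i' → ∀ c', g (i', c') = 0 := by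
        intro i' hii c'
        refine ih i' ?_ c'
        have : i.1 < i'.1 := hii
        omega
      have h5 := hval (ρ i c) (hρ i c)
      rw [Finset.sum_eq_single (i, c)] at h5
      · have h6 : padicValInt (ρ i c) (F c (p i)) = 0 :=
          padicValInt.eq_zero_of_not_dvd (h3 i c c)
        have h7 : padicValInt (ρ i c) (F c (q i)) ≠ 0 := by
          intro h8
          rcases padicValInt.eq_zero_iff.1 h8 with h9 | h9 | h9
          · exact (hρ i c).ne_one h9
          · exact hq i c h9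
          · exact h9 (h1 i c)
        simp only [h6, Nat.cast_zero, sub_zero] at h5
        rcases mul_eq_zero.1 h5 with h8 | h8
        · exact h8
        · exact absurd (by exact_mod_cast h8) h7
      · rintro ⟨i', c'⟩ - hne
        rcases lt_trichotomy i' i with h6 | h6 | h6
        · rw [padicValInt.eq_zero_of_not_dvd (h4 i i' h6 c c').1,
            padicValInt.eq_zero_of_not_dvd (h4 i i' h6 c c').2]
          simp
        · subst h6
          have hcc : c ≠ c' := fun h => hne (by rw [h])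
          rw [padicValInt.eq_zero_of_not_dvd (h2 i' c c' hcc),
            padicValInt.eq_zero_of_not_dvd (h3 i' c c')]
          simp
        · rw [hlater i' h6 c', zero_mul]
      · intro h; exact absurd (Finset.mem_univ _) h
  rintro ⟨i, c⟩
  exact key r i (Nat.le_add_right _ _) c

end Pool.Agent.K3h28.AF
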