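import Mathlib
import Pool.Agent.K3h28.AF.Count

/-!
# Coprime polynomials
-/

set_option autoImplicit false

namespace Pool.Agent.K3h28.AF

open Finset Polynomial

theorem exists_bezout (A B : ℤ[X])
    (h : IsCoprime (A.map (Int.castRingHom ℚ)) (B.map (Int.castRingHom ℚ))) :
    ∃ N : ℤ, N ≠ 0 ∧ ∀ (n d : ℤ), d ∣ A.eval n → d ∣ B.eval n → d ∣ N := by
  obtain ⟨a, b, hab⟩ := h
  obtain ⟨b₁, hb₁m, hb₁⟩ := IsLocalization.integerNormalization_spec (nonZeroDivisors ℤ) a
  obtain ⟨b₂, hb₂m, hb₂⟩ := IsLocalization.integerNormalization_spec (nonZeroDivisors ℤ) b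
  set a' := IsLocalization.integerNormalization (nonZeroDivisors ℤ) a with ha'
  set b' := IsLocalization.integerNormalization (nonZeroDivisors ℤ) b with hb'
  have hinj : Function.Injective (Polynomial.map (Int.castRingHom ℚ)) :=
    Polynomial.map_injective _ (RingHom.injective_int _)
  have e1 : a'.map (Int.castRingHom ℚ) = C ((b₁ : ℤ) : ℚ) * a := by
    have : a'.map (algebraMap ℤ ℚ) = b₁ • a := hb₁
    rw [zsmul_eq_mul] at this
    rw [show Int.castRingHom ℚ = algebraMap ℤ ℚ from rfl, this]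
    simp
  have e2 : b'.map (Int.castRingHom ℚ) = C ((b₂ : ℤ) : ℚ) * b := by
    have : b'.map (algebraMap ℤ ℚ) = b₂ • b := hb₂
    rw [zsmul_eq_mul] at this
    rw [show Int.castRingHom ℚ = algebraMap ℤ ℚ from rfl, this]
    simp
  have key : C (b₂ : ℤ) * a' * A + C (b₁ : ℤ) * b' * B = C ((b₁ : ℤ) * (b₂ : ℤ)) := by
    apply hinj
    simp only [Polynomial.map_add, Polynomial.map_mul, Polynomial.map_C, e1, e2]
    have h1 : (C ((Int.castRingHom ℚ) (b₂ : ℤ)) * (C ((b₁ : ℤ) : ℚ) * a) * A.map (Int.castRingHom ℚ) +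
        C ((Int.castRingHom ℚ) (b₁ : ℤ)) * (C ((b₂ : ℤ) : ℚ) * b) * B.map (Int.castRingHom ℚ)) =
        C (((b₁ : ℤ) : ℚ)) * C (((b₂ : ℤ) : ℚ)) *
          (a * A.map (Int.castRingHom ℚ) + b * B.map (Int.castRingHom ℚ)) := by
      simp only [eq_intCast]
      ring
    rw [h1, hab, mul_one, ← C_mul]
    simp
  refine ⟨(b₁ : ℤ) * (b₂ : ℤ), mul_ne_zero (nonZeroDivisors.ne_zero hb₁m)
    (nonZeroDivisors.ne_zero hb₂m), ?_⟩
  intro n d hA hB
  have h1 := congrArg (Polynomial.eval n) key
  simp only [eval_add, eval_mul, eval_C] at h1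
  rw [← h1]
  exact dvd_add (Dvd.dvd.mul_left hA _) (Dvd.dvd.mul_left hB _)

theorem nice_of_poly {M : Type} [Fintype M] (G : M → ℤ[X]) (hdeg : ∀ c, 0 < (G c).natDegree)
    (hcop : ∀ c c', c ≠ c' → IsCoprime ((G c).map (Int.castRingHom ℚ))
      ((G c').map (Int.castRingHom ℚ))) (p₀ : ℕ) :
    ∃ w₀ K E, p₀ ≤ w₀ ∧ Nice (fun c n => (G c).eval (n : ℤ)) w₀ K E := by
  classical
  have hG0 : ∀ c, G c ≠ 0 := fun c h => by
    have := hdeg c
    rw [h, natDegree_zero] at this
    exact lt_irrefl _ this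
  -- the constants
  choose! N hN0 hN using fun (c c' : M) (h : c ≠ c') => exists_bezout (G c) (G c') (hcop c c' h)
  set K : ℕ := 2 * ∑ c, (G c).natDegree + 1 with hK
  set H : ℕ := ∑ c, ∑ i ∈ range ((G c).natDegree + 1), ((G c).coeff i).natAbs with hH
  set d : ℕ := ∑ c, (G c).natDegree with hd
  set w₀ : ℕ := p₀ + K ^ 2 + (∑ c, (G c).leadingCoeff.natAbs) +
    (∑ c, ((G c).roots.toFinset.sup Int.natAbs)) + ∑ c, ∑ c', (N c c').natAbs with hw₀
  have hKd : ∀ c, (G c).natDegree ≤ d := fun c =>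
    Finset.single_le_sum (f := fun c => (G c).natDegree) (fun _ _ => Nat.zero_le _) (Finset.mem_univ c)
  refine ⟨w₀, K, H + 2 * d, by omega, ?_⟩
  refine ⟨by omega, by omega, ?_, ?_, ?_, ?_, ?_⟩
  · -- nonzero
    intro c n hn h0
    have h1 : (n : ℤ) ∈ (G c).roots.toFinset := by
      rw [Multiset.mem_toFinset, mem_roots (hG0 c)]
      exact h0
    have h2 : Int.natAbs (n : ℤ) ≤ (G c).roots.toFinset.sup Int.natAbs :=
      Finset.le_sup (f := Int.natAbs) h1
    have h3 : (G c).roots.toFinset.sup Int.natAbs ≤ ∑ c, ((G c).roots.toFinset.sup Int.natAbs) :=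
      Finset.single_le_sum (f := fun c => (G c).roots.toFinset.sup Int.natAbs)
        (fun _ _ => Nat.zero_le _) (Finset.mem_univ c)
    simp only [Int.natAbs_natCast] at h2
    omega
  · -- size
    intro c j hj n hn
    have h1 : ((G c).eval (n : ℤ)).natAbs ≤
        ∑ i ∈ range ((G c).natDegree + 1), ((G c).coeff i).natAbs * (2 ^ (j + 1)) ^ d := by
      rw [eval_eq_sum_range]
      refine (Int.natAbs_sum_le _ _).trans ?_
      refine Finset.sum_le_sum fun i hi => ?_
      rw [Int.natAbs_mul, Int.natAbs_pow, Int.natAbs_natCast]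
      refine Nat.mul_le_mul_left _ ?_
      rw [Finset.mem_range] at hi
      calc n ^ i ≤ (2 ^ (j + 1)) ^ i := Nat.pow_le_pow_left hn.le _
        _ ≤ (2 ^ (j + 1)) ^ d := Nat.pow_le_pow_right (by positivity) (by have := hKd c; omega)
    refine h1.trans ?_
    rw [← Finset.sum_mul]
    have h2 : ∑ i ∈ range ((G c).natDegree + 1), ((G c).coeff i).natAbs ≤ H :=
      Finset.single_le_sum (f := fun c => ∑ i ∈ range ((G c).natDegree + 1), ((G c).coeff i).natAbs)
        (fun _ _ => Nat.zero_le _) (Finset.mem_univ c)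
    have h3 : H ≤ 2 ^ H := Nat.lt_two_pow_self.le
    calc (∑ i ∈ range ((G c).natDegree + 1), ((G c).coeff i).natAbs) * (2 ^ (j + 1)) ^ d
        ≤ 2 ^ H * (2 ^ (j + 1)) ^ d := Nat.mul_le_mul_right _ (h2.trans h3)
      _ = 2 ^ (H + (j + 1) * d) := by rw [← pow_mul, ← pow_add]
      _ ≤ 2 ^ ((H + 2 * d) * j) := by
        refine Nat.pow_le_pow_right (by norm_num) ?_
        nlinarith [Nat.mul_le_mul_left H hj, Nat.mul_le_mul_left d hj]
  · -- fibres
    intro c v T hT
    have hne : ∀ e : ℤ, G c - C e ≠ 0 := by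
      intro e h0
      have h1 : G c = C e := sub_eq_zero.1 h0
      have := hdeg c
      rw [h1, natDegree_C] at this
      exact lt_irrefl _ this
    have h1 : T.card ≤ ((G c - C (v : ℤ)).roots.toFinset ∪ (G c - C (-(v : ℤ))).roots.toFinset).card := by
      refine Finset.card_le_card_of_injOn (fun n => (n : ℤ)) ?_ ?_
      · intro n hn
        have h2 := hT n hn
        rw [Finset.mem_coe, Finset.mem_union, Multiset.mem_toFinset, Multiset.mem_toFinset,
          mem_roots (hne _), mem_roots (hne _), IsRoot.def, IsRoot.def, eval_sub, eval_sub, eval_C,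
          eval_C, sub_eq_zero, sub_eq_zero]
        rcases Int.natAbs_eq ((G c).eval (n : ℤ)) with h3 | h3
        · left
          rw [h3, h2]
        · right
          rw [h3, h2]
      · intro n _ n' _ h
        have h' : (n : ℤ) = (n' : ℤ) := h
        exact_mod_cast h'
    refine h1.trans ((Finset.card_union_le _ _).trans ?_)
    have h2 : ∀ e : ℤ, (G c - C e).roots.toFinset.card ≤ d := by
      intro e
      refine (Multiset.toFinset_card_le _).trans ((card_roots' _).trans ?_)
      refine (natDegree_sub_le _ _).trans ?_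
      rw [natDegree_C, max_eq_left (Nat.zero_le _)]
      exact hKd c
    have h3 := h2 v
    have h4 := h2 (-v)
    omega
  · -- roots
    intro r hr hwr
    have : Fact r.Prime := ⟨hr⟩
    have hmap : ∀ c, (G c).map (Int.castRingHom (ZMod r)) ≠ 0 := by
      intro c h0
      have h1 := congrArg (fun P => P.coeff (G c).natDegree) h0
      simp only [coeff_map, coeff_zero, eq_intCast] at h1
      have h2 : (r : ℤ) ∣ (G c).leadingCoeff := (ZMod.intCast_zmod_eq_zero_iff_dvd _ r).1 h1
      have h3 : r ∣ (G c).leadingCoeff.natAbs := Int.natCast_dvd.1 h2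
      have h4 : (G c).leadingCoeff.natAbs ≠ 0 :=
        Int.natAbs_ne_zero.2 (leadingCoeff_ne_zero.2 (hG0 c))
      have h5 := Nat.le_of_dvd (Nat.pos_of_ne_zero h4) h3
      have h6 : (G c).leadingCoeff.natAbs ≤ ∑ c, (G c).leadingCoeff.natAbs :=
        Finset.single_le_sum (f := fun c => (G c).leadingCoeff.natAbs)
          (fun _ _ => Nat.zero_le _) (Finset.mem_univ c)
      omega
    refine ⟨univ.biUnion fun c => ((G c).map (Int.castRingHom (ZMod r))).roots.toFinset.image ZMod.val,
      ?_, ?_⟩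
    · refine Finset.card_biUnion_le.trans ?_
      have h1 : ∀ c ∈ (univ : Finset M),
          (((G c).map (Int.castRingHom (ZMod r))).roots.toFinset.image ZMod.val).card ≤
          (G c).natDegree := by
        intro c _
        refine Finset.card_image_le.trans ((Multiset.toFinset_card_le _).trans
          ((card_roots' _).trans ?_))
        exact natDegree_map_le
      refine (Finset.sum_le_sum h1).trans ?_
      omega
    · rintro n ⟨c, hc⟩
      rw [Finset.mem_biUnion]
      refine ⟨c, Finset.mem_univ _, ?_⟩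
      rw [Finset.mem_image]
      refine ⟨(n : ZMod r), ?_, ZMod.val_natCast r n⟩
      rw [Multiset.mem_toFinset, mem_roots (hmap c), IsRoot.def]
      have h1 : ((n : ℕ) : ZMod r) = (Int.castRingHom (ZMod r)) (n : ℤ) := by simp
      rw [h1, eval_map_apply, eq_intCast]
      exact (ZMod.intCast_zmod_eq_zero_iff_dvd _ r).2 hc
  · -- coprimality
    intro r hr hwr c c' hcc n h1 h2
    have h3 := hN c c' hcc n r h1 h2
    have h4 : r ∣ (N c c').natAbs := Int.natCast_dvd.1 h3
    have h5 := Nat.le_of_dvd (Nat.pos_of_ne_zero (Int.natAbs_ne_zero.2 (hN0 c c' hcc))) h4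
    have h6 : (N c c').natAbs ≤ ∑ c', (N c c').natAbs :=
      Finset.single_le_sum (f := fun c' => (N c c').natAbs) (fun _ _ => Nat.zero_le _)
        (Finset.mem_univ c')
    have h7 : ∑ c', (N c c').natAbs ≤ ∑ c, ∑ c', (N c c').natAbs :=
      Finset.single_le_sum (f := fun c => ∑ c', (N c c').natAbs) (fun _ _ => Nat.zero_le _)
        (Finset.mem_univ c)
    omega

end Pool.Agent.K3h28.AF
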