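import Mathlib
import Pool.Agent.K3h28.AF.Cube
import Pool.Agent.K3h28.AF.Ind
import Pool.Agent.K3h28.AF.Poly
import Pool.Agent.K3h28.AF.Fac
import Pool.Agent.K3h28.NF.VHyp
import Pool.Agent.H297R2.Tuples

/-!
# Values of multiplicative functions at almost all integers
-/

set_option autoImplicit false

namespace Pool.Agent.K3h28.AF

open Finset Polynomial
open Pool.Agent.H301R2.SSE (QB mem_QB)
open Pool.Agent.H297R2 (NoRel)

open Classical in
/-- few integers are divisible by the square of a large number -/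
theorem card_square (w x : ℕ) (hw : 1 ≤ w) :
    (((Ioc 0 x).filter fun n => ∃ p, w < p ∧ p ^ 2 ∣ n).card : ℝ) ≤ x / w := by
  classical
  have hw0 : (0 : ℝ) < w := by exact_mod_cast hw
  rcases Nat.lt_or_ge x w with hxw | hxw
  · have h1 : (Ioc 0 x).filter (fun n => ∃ p, w < p ∧ p ^ 2 ∣ n) = ∅ := by
      rw [Finset.filter_eq_empty_iff]
      rintro n hn ⟨p, hp, hpn⟩
      rw [Finset.mem_Ioc] at hn
      have h2 := Nat.le_of_dvd hn.1 hpn
      have h3 : p ≤ p ^ 2 := Nat.le_self_pow (by norm_num) p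
      omega
    rw [h1, Finset.card_empty]
    push_cast
    positivity
  · have h1 : (Ioc 0 x).filter (fun n => ∃ p, w < p ∧ p ^ 2 ∣ n) ⊆
        (Ioc w x).biUnion fun p => (Ioc 0 x).filter fun n => p ^ 2 ∣ n := by
      intro n hn
      rw [Finset.mem_filter] at hn
      obtain ⟨hn, p, hp, hpn⟩ := hn
      rw [Finset.mem_biUnion]
      refine ⟨p, ?_, Finset.mem_filter.2 ⟨hn, hpn⟩⟩
      rw [Finset.mem_Ioc] at hn ⊢
      have h2 := Nat.le_of_dvd hn.1 hpn
      have h3 : p ≤ p ^ 2 := Nat.le_self_pow (by norm_num) p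
      exact ⟨hp, by omega⟩
    have h2 := (Finset.card_le_card h1).trans Finset.card_biUnion_le
    have h3 : ((∑ p ∈ Ioc w x, ((Ioc 0 x).filter fun n => p ^ 2 ∣ n).card : ℕ) : ℝ) ≤
        ∑ p ∈ Ioc w x, (x : ℝ) * ((p : ℝ) ^ 2)⁻¹ := by
      push_cast
      apply Finset.sum_le_sum
      intro p _
      rw [Nat.Ioc_filter_dvd_card_eq_div]
      have := Nat.cast_div_le (α := ℝ) (m := x) (n := p ^ 2)
      push_cast at this
      rw [← div_eq_mul_inv]
      exact this
    have h4 := sum_Ioc_inv_sq_le_sub (α := ℝ) (k := w) (n := x) (by omega) hxw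
    rw [← Finset.mul_sum] at h3
    calc (((Ioc 0 x).filter fun n => ∃ p, w < p ∧ p ^ 2 ∣ n).card : ℝ)
        ≤ ((∑ p ∈ Ioc w x, ((Ioc 0 x).filter fun n => p ^ 2 ∣ n).card : ℕ) : ℝ) := by
          exact_mod_cast h2
      _ ≤ x * ∑ p ∈ Ioc w x, ((p : ℝ) ^ 2)⁻¹ := h3
      _ ≤ x * ((w : ℝ)⁻¹ - (x : ℝ)⁻¹) := mul_le_mul_of_nonneg_left h4 (by positivity)
      _ ≤ x * (w : ℝ)⁻¹ := by
          refine mul_le_mul_of_nonneg_left ?_ (by positivity)
          have : (0 : ℝ) ≤ (x : ℝ)⁻¹ := by positivity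
          linarith
      _ = x / w := by rw [div_eq_mul_inv]

theorem indep_combine {r b : ℕ} {M : Type} [Fintype M] (w : Fin r × Fin b → ℂ)
    (hw : LinearIndependent ℚ w) (e : M → Fin b → ℕ)
    (he : LinearIndependent ℤ (fun c i => (e c i : ℤ))) :
    LinearIndependent ℚ (fun z : Fin r × M => ∑ i, (e z.2 i : ℂ) * w (z.1, i)) := by
  classical
  rw [← LinearIndependent.iff_fractionRing ℤ ℚ] at hw ⊢
  rw [Fintype.linearIndependent_iff] at hw he ⊢
  intro g hg
  have h1 : ∑ z : Fin r × Fin b, (∑ c, g (z.1, c) * (e c z.2 : ℤ)) • w z = 0 := by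
    rw [← hg, Fintype.sum_prod_type, Fintype.sum_prod_type]
    refine Finset.sum_congr rfl fun i _ => ?_
    simp only [zsmul_eq_mul, Finset.mul_sum, Int.cast_sum, Finset.sum_mul, Int.cast_mul,
      Int.cast_natCast]
    rw [Finset.sum_comm]
    refine Finset.sum_congr rfl fun c _ => Finset.sum_congr rfl fun j _ => ?_
    ring
  have h2 := hw _ h1
  rintro ⟨i, c⟩
  refine he (fun c => g (i, c)) ?_ c
  funext j
  rw [Finset.sum_apply, Pi.zero_apply]
  simp only [Pi.smul_apply, smul_eq_mul]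
  exact h2 (i, j)

theorem alg_combine {b : ℕ} (w : Fin b → ℂ) (hw : ∀ i, IsAlgebraic ℚ (Complex.exp (w i)))
    (e : Fin b → ℕ) : IsAlgebraic ℚ (Complex.exp (∑ i, (e i : ℂ) * w i)) := by
  rw [Complex.exp_sum, ← mem_algebraicClosure_iff]
  refine prod_mem fun i _ => ?_
  rw [Complex.exp_nat_mul]
  exact pow_mem (mem_algebraicClosure_iff.2 (hw i)) _

open Classical in
/-- **One variable.** -/
theorem density_one {M : Type} [Fintype M] (G : M → ℤ[X]) (hG : MultIndep G)
    (f : M → ArithmeticFunction ℝ)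
    (hf : ∀ c, (f c).IsMultiplicative) (p₀ : ℕ)
    (hfp : ∀ c, ∀ p : ℕ, p.Prime → p₀ ≤ p → f c p = ((G c).eval (p : ℤ) : ℤ))
    (σ : Type) [Fintype σ] (D : ℕ) (ε : ℝ) (hε : 0 < ε) : ∃ x₀ : ℕ, ∀ x ≥ x₀,
    ∀ t : σ → ℂ, NoRel QB D t →
      (((Ioc 0 x).filter fun n => (∀ c, f c n ≠ 0) ∧
        ¬ NoRel QB D (Sum.elim t fun c => (Real.log (f c n) : ℂ))).card : ℝ) ≤ ε * x := by
  obtain ⟨b, H, e, κ, hdeg, hcop, he, hdec⟩ := decomp G hG
  obtain ⟨w₀, K, E, hpw, hF⟩ := nice_of_poly H hdeg hcop p₀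
  obtain ⟨r, hr⟩ := Pool.Agent.K3h28.NF.cube_logs σ M D
  obtain ⟨w₁, hw₁⟩ := exists_nat_ge (2 / ε)
  set w : ℕ := w₀ + w₁ + 1 with hw
  obtain ⟨x₀, hx₀⟩ := dense_cube hF r (ε / 2) (by positivity) w (by omega)
  refine ⟨x₀, fun x hx t ht => ?_⟩
  by_contra hcon
  push Not at hcon
  set A := (Ioc 0 x).filter fun n => (∀ c, f c n ≠ 0) ∧
        ¬ NoRel QB D (Sum.elim t fun c => (Real.log (f c n) : ℂ)) with hA
  set A' := A.filter fun n => ¬ ∃ p, w < p ∧ p ^ 2 ∣ n with hA'
  have hA'card : ε / 2 * x ≤ A'.card := by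
    have h1 := card_square w x (by omega)
    have h2 : A.card ≤ A'.card + ((Ioc 0 x).filter fun n => ∃ p, w < p ∧ p ^ 2 ∣ n).card := by
      rw [← Finset.card_filter_add_card_filter_not (s := A) (fun n => ¬ ∃ p, w < p ∧ p ^ 2 ∣ n)]
      refine Nat.add_le_add_left (Finset.card_le_card ?_) _
      intro n hn
      rw [Finset.mem_filter, hA, Finset.mem_filter] at hn
      rw [Finset.mem_filter]
      exact ⟨hn.1.1, not_not.1 hn.2⟩
    have h2R : (A.card : ℝ) ≤ A'.card +
        (((Ioc 0 x).filter fun n => ∃ p, w < p ∧ p ^ 2 ∣ n).card : ℝ) := by exact_mod_cast h2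
    have hw0 : (0 : ℝ) < w := by exact_mod_cast (by omega : 0 < w)
    have h3 : (x : ℝ) / w ≤ ε / 2 * x := by
      rw [div_le_iff₀ hw0]
      have h4 : 2 / ε ≤ w := hw₁.trans (by exact_mod_cast (by omega : w₁ ≤ w))
      rw [div_le_iff₀ hε] at h4
      have h5 : (0 : ℝ) ≤ x := by positivity
      nlinarith
    linarith
  obtain ⟨a, p, q, ρ, ha, hp, hq, hinj, hρ1, hρ2, hcube⟩ := hx₀ x hx A'
    ((Finset.filter_subset _ _).trans (Finset.filter_subset _ _)) hA'card
  -- the primes
  have hFp : ∀ i c, (H c).eval ((p i : ℕ) : ℤ) ≠ 0 := fun i c =>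
    hF.ne_zero c (p i) (by have := (hp i).2; omega)
  have hFq : ∀ i c, (H c).eval ((q i : ℕ) : ℤ) ≠ 0 := fun i c =>
    hF.ne_zero c (q i) (by have := (hq i).2; omega)
  have hli := log_indep (fun c n => (H c).eval (n : ℤ)) r p q ρ hFp hFq
    (fun i c => (hρ1 i c).1) (fun i c => (hρ1 i c).2.2.1)
    (fun i c c' hcc => hF.coprime _ (hρ1 i c).1 (by have := (hρ1 i c).2.1; omega) c c' hcc _
      (hρ1 i c).2.2.1) (fun i c c' => (hρ1 i c).2.2.2 c') hρ2
  -- the values at the primes of the cube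
  have hGp : ∀ i c, (G c).eval ((p i : ℕ) : ℤ) ≠ 0 := fun i c => (hdec c (p i) (hFp i)).1
  have hGq : ∀ i c, (G c).eval ((q i : ℕ) : ℤ) ≠ 0 := fun i c => (hdec c (q i) (hFq i)).1
  -- evaluation on the cube
  have hval : ∀ (S : Finset (Fin r)) (c : M),
      f c (a * ∏ i, (if i ∈ S then q i else p i)) =
        f c a * ∏ i, (((G c).eval (((if i ∈ S then q i else p i : ℕ)) : ℤ) : ℤ) : ℝ) := by
    intro S c
    set s : Fin r → ℕ := fun i => if i ∈ S then q i else p i with hs
    have hsp : ∀ i, (s i).Prime ∧ w < s i := by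
      intro i
      simp only [hs]
      split_ifs
      · exact hq i
      · exact hp i
    have hsinj : ∀ i i', i ≠ i' → s i ≠ s i' := by
      intro i i' hii h
      simp only [hs] at h
      split_ifs at h
      · exact hii (Sum.inr_injective (hinj (a₁ := Sum.inr i) (a₂ := Sum.inr i') h))
      · exact absurd (hinj (a₁ := Sum.inr i) (a₂ := Sum.inl i') h) (by simp)
      · exact absurd (hinj (a₁ := Sum.inl i) (a₂ := Sum.inr i') h) (by simp)
      · exact hii (Sum.inl_injective (hinj (a₁ := Sum.inl i) (a₂ := Sum.inl i') h))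
    have hmem := hcube S
    rw [hA', Finset.mem_filter] at hmem
    have hcop1 : Nat.Coprime a (∏ i, s i) := by
      rw [Nat.coprime_prod_right_iff]
      intro i _
      rw [Nat.coprime_comm, (hsp i).1.coprime_iff_not_dvd]
      intro hdvd
      apply hmem.2
      refine ⟨s i, (hsp i).2, ?_⟩
      rw [sq]
      exact Nat.mul_dvd_mul hdvd (Finset.dvd_prod_of_mem _ (Finset.mem_univ i))
    rw [(hf c).map_mul_of_coprime hcop1, ArithmeticFunction.IsMultiplicative.map_prod s (hf c) univ]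
    · congr 1
      refine Finset.prod_congr rfl fun i _ => ?_
      exact hfp c (s i) (hsp i).1 (by have := (hsp i).2; omega)
    · intro i _ i' _ hii
      exact (Nat.coprime_primes (hsp i).1 (hsp i').1).2 (hsinj i i' hii)
  have hfa : ∀ c, f c a ≠ 0 := by
    intro c h0
    have h1 := hcube ∅
    rw [hA', Finset.mem_filter, hA, Finset.mem_filter] at h1
    apply h1.1.2.1 c
    rw [hval, h0, zero_mul]
  -- the logarithms
  set w'' : Fin r × Fin b → ℂ := fun z =>
    ((Real.log ((H z.2).eval ((q z.1 : ℕ) : ℤ) : ℤ) -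
      Real.log ((H z.2).eval ((p z.1 : ℕ) : ℤ) : ℤ) : ℝ) : ℂ) with hw''
  set w' : Fin r → M → ℂ := fun i c =>
    ((Real.log ((G c).eval ((q i : ℕ) : ℤ) : ℤ) - Real.log ((G c).eval ((p i : ℕ) : ℤ) : ℤ) : ℝ) : ℂ)
    with hw'
  have hww : ∀ i c, w' i c = ∑ j, (e c j : ℂ) * w'' (i, j) := by
    intro i c
    simp only [hw', hw'']
    rw [(hdec c (q i) (hFq i)).2, (hdec c (p i) (hFp i)).2]
    push_cast
    rw [add_sub_add_left_eq_sub, ← Finset.sum_sub_distrib]
    refine Finset.sum_congr rfl fun j _ => ?_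
    ring
  have hli' : LinearIndependent ℚ (fun z : Fin r × M => w' z.1 z.2) := by
    have h1 := indep_combine w'' hli e he
    convert h1 using 2 with z
    exact hww z.1 z.2
  have halg : ∀ i c, IsAlgebraic ℚ (Complex.exp (w' i c)) := by
    intro i c
    have h1 : (((G c).eval ((q i : ℕ) : ℤ) : ℤ) : ℝ) ≠ 0 := by exact_mod_cast hGq i c
    have h2 : (((G c).eval ((p i : ℕ) : ℤ) : ℤ) : ℝ) ≠ 0 := by exact_mod_cast hGp i c
    simp only [hw']
    rw [← Complex.ofReal_exp, ← Real.log_div h1 h2, Real.exp_log_eq_abs (div_ne_zero h1 h2)]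
    have h3 : |(((G c).eval ((q i : ℕ) : ℤ) : ℤ) : ℝ) / (((G c).eval ((p i : ℕ) : ℤ) : ℤ) : ℝ)| =
        ((|(((G c).eval ((q i : ℕ) : ℤ) : ℤ) : ℚ) / (((G c).eval ((p i : ℕ) : ℤ) : ℤ) : ℚ)| : ℚ) : ℝ) := by
      push_cast
      rfl
    rw [h3]
    exact isAlgebraic_algebraMap (R := ℚ) (A := ℂ) (|(((G c).eval ((q i : ℕ) : ℤ) : ℤ) : ℚ) /
      (((G c).eval ((p i : ℕ) : ℤ) : ℤ) : ℚ)|)
  set v₀ : M → ℂ := fun c => ((Real.log (f c a) +
    ∑ i, Real.log ((G c).eval ((p i : ℕ) : ℤ) : ℤ) : ℝ) : ℂ) with hv₀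
  obtain ⟨S, hS⟩ := hr t ht v₀ w' halg hli'
  have hmem := hcube S
  rw [hA', Finset.mem_filter, hA, Finset.mem_filter] at hmem
  apply hmem.1.2.2
  have hlog : ∀ c, (Real.log (f c (a * ∏ i, (if i ∈ S then q i else p i))) : ℂ) =
      v₀ c + ∑ i ∈ S, w' i c := by
    intro c
    have hne : ∀ i ∈ (univ : Finset (Fin r)),
        (((G c).eval (((if i ∈ S then q i else p i : ℕ)) : ℤ) : ℤ) : ℝ) ≠ 0 := by
      intro i _
      split_ifs
      · exact_mod_cast hGq i c
      · exact_mod_cast hGp i c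
    rw [hval, Real.log_mul (hfa c) (Finset.prod_ne_zero_iff.2 hne), Real.log_prod hne]
    simp only [hv₀, hw']
    rw [← Complex.ofReal_sum, ← Complex.ofReal_add]
    congr 1
    rw [add_assoc]
    congr 1
    rw [Finset.sum_sub_distrib]
    rw [← Finset.sum_filter_add_sum_filter_not univ (fun i => i ∈ S)
      (fun i => Real.log (((G c).eval (((if i ∈ S then q i else p i : ℕ)) : ℤ) : ℤ) : ℝ)),
      ← Finset.sum_filter_add_sum_filter_not univ (fun i => i ∈ S)
      (fun i => Real.log (((G c).eval ((p i : ℕ) : ℤ) : ℤ) : ℝ))]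
    have e1 : univ.filter (fun i => i ∈ S) = S := by ext i; simp
    rw [e1]
    have e2 : ∑ i ∈ S, Real.log (((G c).eval (((if i ∈ S then q i else p i : ℕ)) : ℤ) : ℤ) : ℝ) =
        ∑ i ∈ S, Real.log (((G c).eval ((q i : ℕ) : ℤ) : ℤ) : ℝ) := by
      apply Finset.sum_congr rfl
      intro i hi
      rw [if_pos hi]
    have e3 : ∑ i ∈ univ.filter (fun i => i ∉ S),
        Real.log (((G c).eval (((if i ∈ S then q i else p i : ℕ)) : ℤ) : ℤ) : ℝ) =
        ∑ i ∈ univ.filter (fun i => i ∉ S), Real.log (((G c).eval ((p i : ℕ) : ℤ) : ℤ) : ℝ) := by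
      apply Finset.sum_congr rfl
      intro i hi
      rw [Finset.mem_filter] at hi
      rw [if_neg hi.2]
    rw [e2, e3]
    ring
  have h5 : (fun c => (Real.log (f c (a * ∏ i, (if i ∈ S then q i else p i))) : ℂ)) =
      fun c => v₀ c + ∑ i ∈ S, w' i c := funext hlog
  rw [h5]
  exact hS

/-- the reindexing `(σ ⊕ M) ⊕ (Fin k × M) ≃ σ ⊕ (Fin (k+1) × M)` -/
def tupEquiv (σ M : Type) (k : ℕ) : (σ ⊕ M) ⊕ (Fin k × M) ≃ σ ⊕ (Fin (k + 1) × M) where
  toFun s := match s with
    | Sum.inl (Sum.inl i) => Sum.inl i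
    | Sum.inl (Sum.inr c) => Sum.inr (0, c)
    | Sum.inr (j, c) => Sum.inr (j.succ, c)
  invFun s := match s with
    | Sum.inl i => Sum.inl (Sum.inl i)
    | Sum.inr (j, c) => Fin.cases (Sum.inl (Sum.inr c)) (fun j => Sum.inr (j, c)) j
  left_inv s := by
    rcases s with (i | c) | ⟨j, c⟩ <;> simp
  right_inv s := by
    rcases s with i | ⟨j, c⟩
    · rfl
    · refine Fin.cases ?_ (fun j => ?_) j <;> simp

open Classical in
/-- **Tuples.** -/
theorem density_tuples {M : Type} [Fintype M] (G : M → ℤ[X]) (hG : MultIndep G)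
    (f : M → ArithmeticFunction ℝ)
    (hf : ∀ c, (f c).IsMultiplicative) (p₀ : ℕ)
    (hfp : ∀ c, ∀ p : ℕ, p.Prime → p₀ ≤ p → f c p = ((G c).eval (p : ℤ) : ℤ))
    (D k : ℕ) : ∀ (σ : Type) [Fintype σ] (ε : ℝ), 0 < ε → ∃ x₀ : ℕ, ∀ x ≥ x₀,
    ∀ t : σ → ℂ, NoRel QB D t →
      (((Fintype.piFinset fun _ : Fin k => Ioc 0 x).filter fun n =>
        (∀ i c, f c (n i) ≠ 0) ∧
        ¬ NoRel QB D (Sum.elim t fun z : Fin k × M => (Real.log (f z.2 (n z.1)) : ℂ))).card : ℝ) ≤
      ε * x ^ k := by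
  induction k with
  | zero =>
    intro σ _ ε hε
    refine ⟨0, fun x _ t ht => ?_⟩
    rw [Finset.filter_false_of_mem]
    · simp [hε.le]
    · intro n _
      push Not
      intro _
      rw [← NoRel.reindex_iff (Equiv.sumEmpty σ (Fin 0 × M)).symm]
      exact ht
  | succ k ih =>
    intro σ _ ε hε
    obtain ⟨x₁, hx₁⟩ := density_one G hG f hf p₀ hfp σ D (ε / 2) (by linarith)
    obtain ⟨x₂, hx₂⟩ := ih (σ ⊕ M) (ε / 2) (by linarith)
    refine ⟨max x₁ x₂, fun x hx t ht => ?_⟩
    set bad : ((Fin (k + 1)) → ℕ) → Prop := fun n => (∀ i c, f c (n i) ≠ 0) ∧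
      ¬ NoRel QB D (Sum.elim t (fun z : Fin (k + 1) × M => (Real.log (f z.2 (n z.1)) : ℂ))) with hbad
    set B := (Fintype.piFinset fun _ : Fin (k + 1) => Ioc 0 x).filter bad with hB
    set A := (Ioc 0 x).filter (fun n : ℕ => (∀ c, f c n ≠ 0) ∧
      ¬ NoRel QB D (Sum.elim t fun c => (Real.log (f c n) : ℂ))) with hA
    have hAcard : (A.card : ℝ) ≤ ε / 2 * x := hx₁ x (le_trans (le_max_left _ _) hx) t ht
    have hfib : B.card = ∑ a ∈ Ioc 0 x, (B.filter (fun n => n 0 = a)).card := by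
      apply Finset.card_eq_sum_card_fiberwise
      intro n hn
      have hn' : n ∈ B := hn
      rw [hB, Finset.mem_filter, Fintype.mem_piFinset] at hn'
      exact hn'.1 0
    have hle : ∀ a, (B.filter (fun n => n 0 = a)).card ≤
        ((Fintype.piFinset fun _ : Fin k => Ioc 0 x).filter (fun m => bad (Fin.cons a m))).card := by
      intro a
      apply Finset.card_le_card_of_injOn (fun n => Fin.tail n)
      · intro n hn
        have hn' : n ∈ B.filter (fun n => n 0 = a) := hn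
        rw [Finset.mem_filter, hB, Finset.mem_filter, Fintype.mem_piFinset] at hn'
        have hcons : (Fin.cons a (Fin.tail n) : Fin (k + 1) → ℕ) = n := by
          rw [← hn'.2]; exact Fin.cons_self_tail n
        show Fin.tail n ∈ _
        rw [Finset.mem_coe, Finset.mem_filter, Fintype.mem_piFinset]
        refine ⟨fun j => hn'.1.1 j.succ, ?_⟩
        rw [hcons]
        exact hn'.1.2
      · intro n hn m hm h
        have hn' : n ∈ B.filter (fun n => n 0 = a) := hn
        have hm' : m ∈ B.filter (fun n => n 0 = a) := hm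
        rw [Finset.mem_filter] at hn' hm'
        rw [← Fin.cons_self_tail n, ← Fin.cons_self_tail m, hn'.2, hm'.2]
        have : Fin.tail n = Fin.tail m := h
        rw [this]
    have hgood : ∀ a ∈ Ioc 0 x, a ∉ A →
        (((Fintype.piFinset fun _ : Fin k => Ioc 0 x).filter (fun m => bad (Fin.cons a m))).card : ℝ) ≤
          ε / 2 * x ^ k := by
      intro a ha haA
      by_cases h0 : ∀ c, f c a ≠ 0
      · have hta : NoRel QB D (Sum.elim t fun c => (Real.log (f c a) : ℂ)) := by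
          by_contra hcon
          apply haA
          rw [hA, Finset.mem_filter]
          exact ⟨ha, h0, hcon⟩
        have h1 := hx₂ x (le_trans (le_max_right _ _) hx) _ hta
        refine le_trans ?_ h1
        have h2 : (Fintype.piFinset fun _ : Fin k => Ioc 0 x).filter (fun m => bad (Fin.cons a m)) ⊆
            (Fintype.piFinset fun _ : Fin k => Ioc 0 x).filter fun n =>
              (∀ i c, f c (n i) ≠ 0) ∧
              ¬ NoRel QB D (Sum.elim (Sum.elim t fun c => (Real.log (f c a) : ℂ))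
                fun z : Fin k × M => (Real.log (f z.2 (n z.1)) : ℂ)) := by
          intro m hm
          rw [Finset.mem_filter] at hm ⊢
          refine ⟨hm.1, fun i c => hm.2.1 i.succ c, ?_⟩
          intro hno
          apply hm.2.2
          rw [← NoRel.reindex_iff (tupEquiv σ M k)]
          have : (Sum.elim t (fun z : Fin (k + 1) × M =>
              (Real.log (f z.2 ((Fin.cons a m : Fin (k + 1) → ℕ) z.1)) : ℂ))) ∘ tupEquiv σ M k =
              Sum.elim (Sum.elim t fun c => (Real.log (f c a) : ℂ))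
                fun z : Fin k × M => (Real.log (f z.2 (m z.1)) : ℂ) := by
            funext s
            rcases s with (i | c) | ⟨j, c⟩ <;> simp [tupEquiv]
          rw [this]
          exact hno
        exact_mod_cast Finset.card_le_card h2
      · push Not at h0
        obtain ⟨c, hc⟩ := h0
        rw [Finset.filter_false_of_mem]
        · simp only [Finset.card_empty, Nat.cast_zero]
          positivity
        · intro m _ hm
          exact hm.1 0 c hc
    have htriv : ∀ a, (((Fintype.piFinset fun _ : Fin k => Ioc 0 x).filter (fun m => bad (Fin.cons a m))).card : ℝ) ≤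
          (x : ℝ) ^ k := by
      intro a
      have h1 := Finset.card_filter_le (Fintype.piFinset fun _ : Fin k => Ioc 0 x) (fun m => bad (Fin.cons a m))
      rw [Fintype.card_piFinset] at h1
      simp only [Nat.card_Ioc, Finset.prod_const, Finset.card_univ, Fintype.card_fin] at h1
      have h2 : (((Fintype.piFinset fun _ : Fin k => Ioc 0 x).filter (fun m => bad (Fin.cons a m))).card : ℝ) ≤ (((x - 0) ^ k : ℕ) : ℝ) := by
        exact_mod_cast h1
      simpa using h2
    have hAsub : A ⊆ Ioc 0 x := Finset.filter_subset _ _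
    calc (B.card : ℝ) = ∑ a ∈ Ioc 0 x, ((B.filter (fun n => n 0 = a)).card : ℝ) := by
          rw [hfib]; push_cast; rfl
      _ ≤ ∑ a ∈ Ioc 0 x, ((if a ∈ A then (x : ℝ) ^ k else 0) + ε / 2 * x ^ k) := by
          apply Finset.sum_le_sum
          intro a ha
          have h1 : ((B.filter (fun n => n 0 = a)).card : ℝ) ≤
            (((Fintype.piFinset fun _ : Fin k => Ioc 0 x).filter (fun m => bad (Fin.cons a m))).card : ℝ) := by
            exact_mod_cast hle a
          by_cases haA : a ∈ A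
          · rw [if_pos haA]
            have h2 := htriv a
            have h3 : (0 : ℝ) ≤ ε / 2 * x ^ k := by positivity
            linarith
          · rw [if_neg haA, zero_add]
            exact h1.trans (hgood a ha haA)
      _ = (A.card : ℝ) * x ^ k + x * (ε / 2 * x ^ k) := by
          rw [Finset.sum_add_distrib, ← Finset.sum_filter, Finset.filter_mem_eq_inter,
            Finset.inter_eq_right.2 hAsub, Finset.sum_const, Finset.sum_const, Nat.card_Ioc,
            nsmul_eq_mul, nsmul_eq_mul]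
          simp
      _ ≤ (ε / 2 * x) * x ^ k + x * (ε / 2 * x ^ k) := by gcongr
      _ = ε * x ^ (k + 1) := by ring

end Pool.Agent.K3h28.AF
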