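import Mathlib
import Pool.Agent.K3h28.AF.Dens

/-!
# Cubes on which the logarithms of the values are affine with independent directions
-/

set_option autoImplicit false

namespace Pool.Agent.K3h28.AF

open Finset Polynomial
open Pool.Agent.H301R2.SSE (QB mem_QB)

/-- **Good cubes.** -/
theorem exists_cube {M : Type} [Fintype M] (G : M → ℤ[X]) (hG : MultIndep G)
    (f : M → ArithmeticFunction ℝ)
    (hf : ∀ c, (f c).IsMultiplicative) (p₀ : ℕ)
    (hfp : ∀ c, ∀ p : ℕ, p.Prime → p₀ ≤ p → f c p = ((G c).eval (p : ℤ) : ℤ))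
    (r : ℕ) (ε : ℝ) (hε : 0 < ε) : ∃ x₀ : ℕ, ∀ x ≥ x₀, ∀ A : Finset ℕ, A ⊆ Ioc 0 x →
    (∀ n ∈ A, ∀ c, f c n ≠ 0) → ε * x < A.card →
    ∃ (v₀ : M → ℂ) (w' : Fin r → M → ℂ), (∀ i c, IsAlgebraic ℚ (Complex.exp (w' i c))) ∧
      LinearIndependent ℚ (fun z : Fin r × M => w' z.1 z.2) ∧
      ∀ S : Finset (Fin r), ∃ n ∈ A, (fun c => (Real.log (f c n) : ℂ)) =
        fun c => v₀ c + ∑ i ∈ S, w' i c := by
  classical
  obtain ⟨b, H, e, κ, hdeg, hcop, he, hdec⟩ := decomp G hG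
  obtain ⟨w₀, K, E, hpw, hF⟩ := nice_of_poly H hdeg hcop p₀
  obtain ⟨w₁, hw₁⟩ := exists_nat_ge (2 / ε)
  set w : ℕ := w₀ + w₁ + 1 with hw
  obtain ⟨x₀, hx₀⟩ := dense_cube hF r (ε / 2) (by positivity) w (by omega)
  refine ⟨x₀, fun x hx A hAx hA0 hcon => ?_⟩
  set A' := A.filter fun n => ¬ ∃ p, w < p ∧ p ^ 2 ∣ n with hA'
  have hA'card : ε / 2 * x ≤ A'.card := by
    have h1 := card_square w x (by omega)
    have h2 : A.card ≤ A'.card + ((Ioc 0 x).filter fun n => ∃ p, w < p ∧ p ^ 2 ∣ n).card := by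
      rw [← Finset.card_filter_add_card_filter_not (s := A) (fun n => ¬ ∃ p, w < p ∧ p ^ 2 ∣ n)]
      refine Nat.add_le_add_left (Finset.card_le_card ?_) _
      intro n hn
      rw [Finset.mem_filter] at hn
      rw [Finset.mem_filter]
      exact ⟨hAx hn.1, not_not.1 hn.2⟩
    have h2R : (A.card : ℝ) ≤ A'.card +
        (((Ioc 0 x).filter fun n => ∃ p, w < p ∧ p ^ 2 ∣ n).card : ℝ) := by exact_mod_cast h2
    have hw0 : (0 : ℝ) < w := by exact_mod_cast (by omega : 0 < w)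
    have h3 : (x : ℝ) / w ≤ ε / 2 * x := by
      rw [div_le_iff₀ hw0]
      have h4 : 2 / ε ≤ w := hw₁.trans (by exact_mod_cast (by omega : w₁ ≤ w))
      rw [div_le_iff₀ hε] at h4
      have h5 : (0 : ℝ) ≤ x := by positivity
      nlinarith
    linarith
  obtain ⟨a, p, q, ρ, ha, hp, hq, hinj, hρ1, hρ2, hcube⟩ := hx₀ x hx A'
    ((Finset.filter_subset _ _).trans hAx) hA'card
  -- the primes
  have hFp : ∀ i c, (H c).eval ((p i : ℕ) : ℤ) ≠ 0 := fun i c =>
    hF.ne_zero c (p i) (by have := (hp i).2; omega)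
  have hFq : ∀ i c, (H c).eval ((q i : ℕ) : ℤ) ≠ 0 := fun i c =>
    hF.ne_zero c (q i) (by have := (hq i).2; omega)
  have hli := log_indep (fun c n => (H c).eval (n : ℤ)) r p q ρ hFp hFq
    (fun i c => (hρ1 i c).1) (fun i c => (hρ1 i c).2.2.1)
    (fun i c c' hcc => hF.coprime _ (hρ1 i c).1 (by have := (hρ1 i c).2.1; omega) c c' hcc _
      (hρ1 i c).2.2.1) (fun i c c' => (hρ1 i c).2.2.2 c') hρ2
  -- the values at the primes of the cube
  have hGp : ∀ i c, (G c).eval ((p i : ℕ) : ℤ) ≠ 0 := fun i c => (hdec c (p i) (hFp i)).1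
  have hGq : ∀ i c, (G c).eval ((q i : ℕ) : ℤ) ≠ 0 := fun i c => (hdec c (q i) (hFq i)).1
  -- evaluation on the cube
  have hval : ∀ (S : Finset (Fin r)) (c : M),
      f c (a * ∏ i, (if i ∈ S then q i else p i)) =
        f c a * ∏ i, (((G c).eval (((if i ∈ S then q i else p i : ℕ)) : ℤ) : ℤ) : ℝ) := by
    intro S c
    set s : Fin r → ℕ := fun i => if i ∈ S then q i else p i with hs
    have hsp : ∀ i, (s i).Prime ∧ w < s i := by
      intro i
      simp only [hs]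
      split_ifs
      · exact hq i
      · exact hp i
    have hsinj : ∀ i i', i ≠ i' → s i ≠ s i' := by
      intro i i' hii h
      simp only [hs] at h
      split_ifs at h
      · exact hii (Sum.inr_injective (hinj (a₁ := Sum.inr i) (a₂ := Sum.inr i') h))
      · exact absurd (hinj (a₁ := Sum.inr i) (a₂ := Sum.inl i') h) (by simp)
      · exact absurd (hinj (a₁ := Sum.inl i) (a₂ := Sum.inr i') h) (by simp)
      · exact hii (Sum.inl_injective (hinj (a₁ := Sum.inl i) (a₂ := Sum.inl i') h))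
    have hmem := hcube S
    rw [hA', Finset.mem_filter] at hmem
    have hcop1 : Nat.Coprime a (∏ i, s i) := by
      rw [Nat.coprime_prod_right_iff]
      intro i _
      rw [Nat.coprime_comm, (hsp i).1.coprime_iff_not_dvd]
      intro hdvd
      apply hmem.2
      refine ⟨s i, (hsp i).2, ?_⟩
      rw [sq]
      exact Nat.mul_dvd_mul hdvd (Finset.dvd_prod_of_mem _ (Finset.mem_univ i))
    rw [(hf c).map_mul_of_coprime hcop1, ArithmeticFunction.IsMultiplicative.map_prod s (hf c) univ]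
    · congr 1
      refine Finset.prod_congr rfl fun i _ => ?_
      exact hfp c (s i) (hsp i).1 (by have := (hsp i).2; omega)
    · intro i _ i' _ hii
      exact (Nat.coprime_primes (hsp i).1 (hsp i').1).2 (hsinj i i' hii)
  have hfa : ∀ c, f c a ≠ 0 := by
    intro c h0
    have h1 := hcube ∅
    rw [hA', Finset.mem_filter] at h1
    apply hA0 _ h1.1 c
    rw [hval, h0, zero_mul]
  -- the logarithms
  set w'' : Fin r × Fin b → ℂ := fun z =>
    ((Real.log ((H z.2).eval ((q z.1 : ℕ) : ℤ) : ℤ) -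
      Real.log ((H z.2).eval ((p z.1 : ℕ) : ℤ) : ℤ) : ℝ) : ℂ) with hw''
  set w' : Fin r → M → ℂ := fun i c =>
    ((Real.log ((G c).eval ((q i : ℕ) : ℤ) : ℤ) - Real.log ((G c).eval ((p i : ℕ) : ℤ) : ℤ) : ℝ) : ℂ)
    with hw'
  have hww : ∀ i c, w' i c = ∑ j, (e c j : ℂ) * w'' (i, j) := by
    intro i c
    simp only [hw', hw'']
    rw [(hdec c (q i) (hFq i)).2, (hdec c (p i) (hFp i)).2]
    push_cast
    rw [add_sub_add_left_eq_sub, ← Finset.sum_sub_distrib]
    refine Finset.sum_congr rfl fun j _ => ?_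
    ring
  have hli' : LinearIndependent ℚ (fun z : Fin r × M => w' z.1 z.2) := by
    have h1 := indep_combine w'' hli e he
    convert h1 using 2 with z
    exact hww z.1 z.2
  have halg : ∀ i c, IsAlgebraic ℚ (Complex.exp (w' i c)) := by
    intro i c
    have h1 : (((G c).eval ((q i : ℕ) : ℤ) : ℤ) : ℝ) ≠ 0 := by exact_mod_cast hGq i c
    have h2 : (((G c).eval ((p i : ℕ) : ℤ) : ℤ) : ℝ) ≠ 0 := by exact_mod_cast hGp i c
    simp only [hw']
    rw [← Complex.ofReal_exp, ← Real.log_div h1 h2, Real.exp_log_eq_abs (div_ne_zero h1 h2)]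
    have h3 : |(((G c).eval ((q i : ℕ) : ℤ) : ℤ) : ℝ) / (((G c).eval ((p i : ℕ) : ℤ) : ℤ) : ℝ)| =
        ((|(((G c).eval ((q i : ℕ) : ℤ) : ℤ) : ℚ) / (((G c).eval ((p i : ℕ) : ℤ) : ℤ) : ℚ)| : ℚ) : ℝ) := by
      push_cast
      rfl
    rw [h3]
    exact isAlgebraic_algebraMap (R := ℚ) (A := ℂ) (|(((G c).eval ((q i : ℕ) : ℤ) : ℤ) : ℚ) /
      (((G c).eval ((p i : ℕ) : ℤ) : ℤ) : ℚ)|)
  set v₀ : M → ℂ := fun c => ((Real.log (f c a) +
    ∑ i, Real.log ((G c).eval ((p i : ℕ) : ℤ) : ℤ) : ℝ) : ℂ) with hv₀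
  refine ⟨v₀, w', halg, hli', fun S => ?_⟩
  have hmem := hcube S
  rw [hA', Finset.mem_filter] at hmem
  refine ⟨_, hmem.1, ?_⟩
  have hlog : ∀ c, (Real.log (f c (a * ∏ i, (if i ∈ S then q i else p i))) : ℂ) =
      v₀ c + ∑ i ∈ S, w' i c := by
    intro c
    have hne : ∀ i ∈ (univ : Finset (Fin r)),
        (((G c).eval (((if i ∈ S then q i else p i : ℕ)) : ℤ) : ℤ) : ℝ) ≠ 0 := by
      intro i _
      split_ifs
      · exact_mod_cast hGq i c
      · exact_mod_cast hGp i c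
    rw [hval, Real.log_mul (hfa c) (Finset.prod_ne_zero_iff.2 hne), Real.log_prod hne]
    simp only [hv₀, hw']
    rw [← Complex.ofReal_sum, ← Complex.ofReal_add]
    congr 1
    rw [add_assoc]
    congr 1
    rw [Finset.sum_sub_distrib]
    rw [← Finset.sum_filter_add_sum_filter_not univ (fun i => i ∈ S)
      (fun i => Real.log (((G c).eval (((if i ∈ S then q i else p i : ℕ)) : ℤ) : ℤ) : ℝ)),
      ← Finset.sum_filter_add_sum_filter_not univ (fun i => i ∈ S)
      (fun i => Real.log (((G c).eval ((p i : ℕ) : ℤ) : ℤ) : ℝ))]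
    have e1 : univ.filter (fun i => i ∈ S) = S := by ext i; simp
    rw [e1]
    have e2 : ∑ i ∈ S, Real.log (((G c).eval (((if i ∈ S then q i else p i : ℕ)) : ℤ) : ℤ) : ℝ) =
        ∑ i ∈ S, Real.log (((G c).eval ((q i : ℕ) : ℤ) : ℤ) : ℝ) := by
      apply Finset.sum_congr rfl
      intro i hi
      rw [if_pos hi]
    have e3 : ∑ i ∈ univ.filter (fun i => i ∉ S),
        Real.log (((G c).eval (((if i ∈ S then q i else p i : ℕ)) : ℤ) : ℤ) : ℝ) =
        ∑ i ∈ univ.filter (fun i => i ∉ S), Real.log (((G c).eval ((p i : ℕ) : ℤ) : ℤ) : ℝ) := by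
      apply Finset.sum_congr rfl
      intro i hi
      rw [Finset.mem_filter] at hi
      rw [if_neg hi.2]
    rw [e2, e3]
    ring
  exact funext hlog

end Pool.Agent.K3h28.AF
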