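import Mathlib
import Pool.Agent.K3h28.AF.ExCube
import Pool.Agent.Y918.SC.Tup

/-!
# Schanuel's conjecture up to bounded degree for linear forms in logarithms of arithmetic functions
-/

set_option autoImplicit false

namespace Pool.Agent.K3h28.AF

open Finset Polynomial Module
open Pool.Agent.H301R2.SSE (QB mem_QB)
open Pool.Agent.W245 (IndepOver IndepT famExt famExt_finite)
open Pool.Agent.W245.PB (count_cons)
open Pool.Agent.Y918.SC (Good mT GoodT one_var)

theorem good_of_indep {M : Type} [Fintype M] {r N : ℕ} (w' : Fin r → M → ℂ)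
    (halg : ∀ i c, IsAlgebraic ℚ (Complex.exp (w' i c)))
    (hli : LinearIndependent ℚ (fun z : Fin r × M => w' z.1 z.2)) (β : Fin N → M → ℂ)
    (hβa : ∀ i c, IsAlgebraic ℚ (β i c)) (hβ : LinearIndependent ℚ β) :
    Good (fun (s : Fin r) (i : Fin N) => ∑ c, β i c * w' s c) := by
  classical
  intro c hc
  have hQ := Pool.Agent.K3h28.NF.baker_indep (fun z : Fin r × M => w' z.1 z.2)
    (fun z => halg z.1 z.2) hli
  rw [Fintype.linearIndependent_iff] at hQ hβ ⊢
  intro a ha s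
  have hmem : ∀ e, (∑ j, (c j : ℂ) * β j e) ∈ QB := by
    intro e
    refine sum_mem fun j _ => mul_mem ?_ (mem_QB.2 (hβa j e))
    exact mem_QB.2 (isAlgebraic_algebraMap (R := ℚ) (A := ℂ) (c j))
  have h1 := hQ (fun z => (algebraMap ℚ QB (a z.1)) * ⟨_, hmem z.2⟩) (by
    rw [← ha, Fintype.sum_prod_type]
    refine Finset.sum_congr rfl fun s _ => ?_
    have h2 : ∀ e, ((algebraMap ℚ QB (a s)) * (⟨∑ j, (c j : ℂ) * β j e, hmem e⟩ : QB)) • w' s e =
        (a s : ℂ) * ((∑ j, (c j : ℂ) * β j e) * w' s e) := by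
      intro e
      rw [Algebra.smul_def, map_mul]
      have h3 : algebraMap QB ℂ (algebraMap ℚ QB (a s)) = (a s : ℂ) := by
        rw [← IsScalarTower.algebraMap_apply ℚ QB ℂ]
        simp
      rw [h3, mul_assoc]
      rfl
    simp only [h2]
    rw [Rat.smul_def, Finset.mul_sum]
    simp only [Finset.mul_sum, Finset.sum_mul]
    rw [Finset.sum_comm]
    refine Finset.sum_congr rfl fun j _ => Finset.sum_congr rfl fun e _ => ?_
    ring)
  by_contra has
  apply hc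
  have h4 : ∀ e, ∑ j, (c j : ℂ) * β j e = 0 := by
    intro e
    have h5 := h1 (s, e)
    rcases mul_eq_zero.1 h5 with h6 | h6
    · exact absurd ((map_eq_zero (algebraMap ℚ QB)).1 h6) has
    · exact congrArg Subtype.val h6
  funext j
  refine hβ c ?_ j
  funext e
  rw [Finset.sum_apply, Pi.zero_apply, ← h4 e]
  refine Finset.sum_congr rfl fun j _ => ?_
  rw [Pi.smul_apply, Rat.smul_def]

/-- the numbers `ζ_i + ∑_c β_ic log |f_c (n)|` -/
noncomputable def zz {M : Type} [Fintype M] {N : ℕ} (f : M → ArithmeticFunction ℝ)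
    (ζ : Fin N → ℂ) (β : Fin N → M → ℂ) (n : ℕ) : Fin N → ℂ :=
  fun i => ζ i + ∑ c, β i c * (Real.log (f c n) : ℂ)

/-- **One variable.** -/
theorem sch_one {M : Type} [Fintype M] (G : M → ℤ[X]) (hG : MultIndep G)
    (f : M → ArithmeticFunction ℝ)
    (hf : ∀ c, (f c).IsMultiplicative) (p₀ : ℕ)
    (hfp : ∀ c, ∀ p : ℕ, p.Prime → p₀ ≤ p → f c p = ((G c).eval (p : ℤ) : ℤ))
    (N D d : ℕ) (ε : ℝ) (hε : 0 < ε) : ∃ x₀ : ℕ, ∀ x ≥ x₀,
    ∀ (ζ : Fin N → ℂ) (β : Fin N → M → ℂ), (∀ i c, IsAlgebraic ℚ (β i c)) →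
      LinearIndependent ℚ β →
    ∀ W : Submodule QB ℂ, Module.Finite QB W → finrank QB W ≤ d →
    ∀ A : Finset ℕ, A ⊆ Ioc 0 x → (∀ n ∈ A, (∀ c, f c n ≠ 0) ∧
      ¬ ∃ T : Fin N → Fin N ⊕ Fin N, Function.Injective T ∧
        IndepOver W (mT (D := D) (zz f ζ β n) T)) → (A.card : ℝ) ≤ ε * x := by
  classical
  obtain ⟨r, hr⟩ := one_var N D d
  obtain ⟨x₀, hx₀⟩ := exists_cube G hG f hf p₀ hfp r ε hε
  refine ⟨x₀, fun x hx ζ β hβa hβ W hWf hWd A hA hbad => ?_⟩
  by_contra hcon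
  push Not at hcon
  obtain ⟨v₀, w', halg, hli, hcube⟩ := hx₀ x hx A hA (fun n hn => (hbad n hn).1) hcon
  obtain ⟨S, T, hT, hS⟩ := hr W hWf hWd (fun i => ζ i + ∑ c, β i c * v₀ c)
    (fun (s : Fin r) (i : Fin N) => ∑ c, β i c * w' s c) (good_of_indep w' halg hli β hβa hβ)
  obtain ⟨n, hn, hlog⟩ := hcube S
  apply (hbad n hn).2
  refine ⟨T, hT, ?_⟩
  have h1 : zz f ζ β n = (fun i => ζ i + ∑ c, β i c * v₀ c) +
      ∑ s ∈ S, (fun (i : Fin N) => ∑ c, β i c * w' s c) := by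
    funext i
    rw [Pi.add_apply, Finset.sum_apply, zz, add_assoc]
    congr 1
    rw [Finset.sum_comm, ← Finset.sum_add_distrib]
    refine Finset.sum_congr rfl fun c _ => ?_
    have h2 := congrFun hlog c
    rw [h2, mul_add, Finset.mul_sum]
  rw [h1]
  exact hS

/-- **Tuples.** -/
theorem sch_tup {M : Type} [Fintype M] (G : M → ℤ[X]) (hG : MultIndep G)
    (f : M → ArithmeticFunction ℝ)
    (hf : ∀ c, (f c).IsMultiplicative) (p₀ : ℕ)
    (hfp : ∀ c, ∀ p : ℕ, p.Prime → p₀ ≤ p → f c p = ((G c).eval (p : ℤ) : ℤ))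
    (N D k : ℕ) : ∀ (d : ℕ) (ε : ℝ), 0 < ε → ∃ x₀ : ℕ, ∀ x ≥ x₀,
    ∀ (ζ : Fin k → Fin N → ℂ) (β : Fin k → Fin N → M → ℂ), (∀ j i c, IsAlgebraic ℚ (β j i c)) →
      (∀ j, LinearIndependent ℚ (β j)) →
    ∀ W : Submodule QB ℂ, Module.Finite QB W → finrank QB W ≤ d →
    ∀ B : Finset (Fin k → ℕ), B ⊆ (Fintype.piFinset fun _ : Fin k => Ioc 0 x) →
      (∀ n ∈ B, (∀ j c, f c (n j) ≠ 0) ∧ ¬ GoodT D W (fun j => zz f (ζ j) (β j) (n j))) →
      (B.card : ℝ) ≤ ε * x ^ k := by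
  induction k with
  | zero =>
    intro d ε hε
    refine ⟨0, fun x _ ζ β _ _ W _ _ B hB hbad => ?_⟩
    have hB0 : B = ∅ := by
      rw [Finset.eq_empty_iff_forall_notMem]
      intro a ha
      exact (hbad a ha).2 ⟨fun i => i.elim0, fun i => i.elim0, IndepT.zero _ _⟩
    rw [hB0]
    simp [hε.le]
  | succ k ih =>
    intro d ε hε
    classical
    obtain ⟨x₁, hx₁⟩ := sch_one G hG f hf p₀ hfp N D d (ε / 2) (by positivity)
    obtain ⟨x₂, hx₂⟩ := ih (d * Fintype.card (Fin N → Fin (D + 1))) (ε / 2) (by positivity)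
    refine ⟨max x₁ x₂, fun x hx ζ β hβa hβ W hWf hWd B hB hbad => ?_⟩
    refine count_cons k x ε hε
      (fun n => (∀ j c, f c (n j) ≠ 0) ∧ ¬ GoodT D W (fun j => zz f (ζ j) (β j) (n j)))
      ((Ioc 0 x).filter (fun a : ℕ => (∀ c, f c a ≠ 0) ∧
        ¬ ∃ T : Fin N → Fin N ⊕ Fin N, Function.Injective T ∧
        IndepOver W (mT (D := D) (zz f (ζ 0) (β 0) a) T)))
      (Finset.filter_subset _ _) ?_ ?_ B hB hbad
    · exact hx₁ x (le_trans (le_max_left _ _) hx) (ζ 0) (β 0) (hβa 0) (hβ 0) W hWf hWd _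
        (Finset.filter_subset _ _) (fun a ha => (Finset.mem_filter.1 ha).2)
    · intro a ha haA B' hB' hbad'
      by_cases h0 : ∀ c, f c a ≠ 0
      · obtain ⟨T₀, hT₀, h₀⟩ : ∃ T : Fin N → Fin N ⊕ Fin N, Function.Injective T ∧
            IndepOver W (mT (D := D) (zz f (ζ 0) (β 0) a) T) := by
          by_contra hcon
          exact haA (Finset.mem_filter.2 ⟨ha, h0, hcon⟩)
        obtain ⟨hfin, hrk⟩ := famExt_finite W d hWd (mT (D := D) (zz f (ζ 0) (β 0) a) T₀)
        exact hx₂ x (le_trans (le_max_right _ _) hx) (fun j => ζ j.succ) (fun j => β j.succ)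
          (fun j => hβa j.succ) (fun j => hβ j.succ) _ hfin hrk B' hB' (by
          intro m hm
          obtain ⟨hm1, hm2⟩ := hbad' m hm
          refine ⟨fun j c => hm1 j.succ c, fun hgood => hm2 ?_⟩
          have h2 := GoodT.cons hT₀ h₀ hgood
          convert h2 using 1
          funext i
          refine Fin.cases ?_ (fun j => ?_) i
          · simp
          · simp)
      · push Not at h0
        obtain ⟨c, hc⟩ := h0
        have hB0 : B' = ∅ := by
          rw [Finset.eq_empty_iff_forall_notMem]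
          intro m hm
          exact (hbad' m hm).1 0 c hc
        rw [hB0, Finset.card_empty]
        push_cast
        positivity

end Pool.Agent.K3h28.AF
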